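import Pool.Agent.TH188.WP.Res
import Pool.Agent.W410.WT.Ind0

/-!
# Fields of rational functions in pairs of variables
-/

set_option autoImplicit false
set_option linter.unusedVariables false
set_option linter.unusedSectionVars false

universe u

open Pool.Agent.W558 Polynomial TensorProduct

namespace Pool.Agent.TH188.WP

section

variable {k E E' : Type u} [Field k] [Field E] [Algebra k E] [Field E'] [Algebra k E']

lemma hasModel_of_equiv (ε : E ≃ₐ[k] E') (h : HasModel k E) : HasModel k E' := by
  obtain ⟨N, H, h0, hs⟩ := h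
  refine ⟨N, fun i => ε (H i), fun i h => h0 i ((map_eq_zero_iff ε ε.injective).1 h), fun i => ?_⟩
  have e1 : Algebra.adjoin k (Set.range fun j => ε (H j) / ε (H i)) =
      (Algebra.adjoin k (Set.range fun j => H j / H i)).map (ε : E →ₐ[k] E') := by
    rw [AlgHom.map_adjoin, ← Set.range_comp]
    congr 2
    funext j
    change ε (H j) / ε (H i) = ε (H j / H i)
    rw [map_div₀]
  rw [e1]
  have hsm := (hs i).sm
  refine ⟨?_, ?_⟩
  · exact Algebra.Smooth.of_equiv ((Algebra.adjoin k (Set.range fun j => H j / H i)).equivMapOfInjective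
      (ε : E →ₐ[k] E') ε.injective)
  · intro x
    obtain ⟨a, ha, b, hb, hb0, h⟩ := (hs i).fr (ε.symm x)
    refine ⟨ε a, ⟨a, ha, rfl⟩, ε b, ⟨b, hb, rfl⟩, fun h => hb0 ((map_eq_zero_iff ε ε.injective).1 h),
      ?_⟩
    rw [← ε.apply_symm_apply x, h, map_mul, map_inv₀]

end

section

variable {k K : Type u} [Field k] [Field K] [Algebra k K]

lemma fieldRange_rsub {J : Type} (x : J → K) (hx : AlgebraicIndependent k x) :
    (rsub hx).fieldRange = IntermediateField.adjoin k (Set.range x) := by
  apply le_antisymm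
  · rintro _ ⟨y, rfl⟩
    obtain ⟨P, Q, hQ, rfl⟩ := IsFractionRing.div_surjective (A := MvPolynomial J k) y
    have h1 : ∀ P : MvPolynomial J k, rsub hx (algebraMap (MvPolynomial J k) (RF k J) P) ∈
        IntermediateField.adjoin k (Set.range x) := by
      intro P
      rw [rsub_algebraMap]
      apply IntermediateField.algebra_adjoin_le_adjoin
      rw [Algebra.adjoin_range_eq_range_aeval]
      exact ⟨P, rfl⟩
    change rsub hx (_ / _) ∈ _
    rw [map_div₀]
    exact div_mem (h1 P) (h1 Q)
  · rw [IntermediateField.adjoin_le_iff]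
    rintro _ ⟨j, rfl⟩
    exact ⟨_, rsub_X hx j⟩

lemma pair_field (x : Fin 2 → K) (hx : AlgebraicIndependent k x) :
    Algebra.trdeg k (IntermediateField.adjoin k (Set.range x)) = 2 ∧
      HasModel k (IntermediateField.adjoin k (Set.range x)) := by
  rw [← fieldRange_rsub x hx]
  let ε : RF k (Fin 2) ≃ₐ[k] (rsub hx).fieldRange := AlgEquiv.ofInjectiveField (rsub hx)
  exact ⟨ε.trdeg_eq.symm.trans (trdeg_RF2 k), hasModel_of_equiv ε (hasModel_RF2 k)⟩

end

section

variable {k K : Type u} [Field k] [Field K] [Algebra k K] {n : ℕ} (x : Fin n → Fin 2 → K)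

/-- The fields generated by the pairs of variables. -/
abbrev pf (k : Type u) {K : Type u} [Field k] [Field K] [Algebra k K] {n : ℕ}
    (x : Fin n → Fin 2 → K) (i : Fin n) : IntermediateField k K :=
  IntermediateField.adjoin k (Set.range (x i))

/-- The variables as elements of these fields. -/
noncomputable def xe (i : Fin n) (c : Fin 2) : pf k x i :=
  ⟨x i c, IntermediateField.subset_adjoin k _ ⟨c, rfl⟩⟩

lemma coe_aeval (i : Fin n) (P : MvPolynomial (Fin 2) k) :
    ((MvPolynomial.aeval (xe x i) P : pf k x i) : K) = MvPolynomial.aeval (x i) P := by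
  have h1 : (pf k x i).val.comp (MvPolynomial.aeval (xe x i)) = MvPolynomial.aeval (x i) := by
    apply MvPolynomial.algHom_ext
    intro c
    rw [AlgHom.comp_apply, MvPolynomial.aeval_X, MvPolynomial.aeval_X]
    rfl
  exact DFunLike.congr_fun h1 P

lemma exists_num (i : Fin n) (hx : AlgebraicIndependent k (x i)) (a : pf k x i) :
    ∃ P Q : MvPolynomial (Fin 2) k, Q ≠ 0 ∧
      MvPolynomial.aeval (xe x i) Q * a = MvPolynomial.aeval (xe x i) P := by
  have h1 : (a : K) ∈ (rsub hx).fieldRange := by
    rw [fieldRange_rsub]; exact a.2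
  obtain ⟨y, hy⟩ := h1
  obtain ⟨P, Q, hQ, rfl⟩ := IsFractionRing.div_surjective (A := MvPolynomial (Fin 2) k) y
  have hQ0 := nonZeroDivisors.ne_zero hQ
  refine ⟨P, Q, hQ0, ?_⟩
  apply Subtype.ext
  change (MvPolynomial.aeval (xe x i) Q : K) * (a : K) = (MvPolynomial.aeval (xe x i) P : K)
  have h2 : MvPolynomial.aeval (x i) Q ≠ 0 := fun h =>
    hQ0 ((injective_iff_map_eq_zero _).1 hx Q h)
  rw [coe_aeval, coe_aeval, ← hy]
  change _ * rsub hx (_ / _) = _
  rw [map_div₀, rsub_algebraMap, rsub_algebraMap]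
  field_simp

section abs

variable {B : Type u} [CommRing B] [Algebra k B] (j : ∀ i, pf k x i →ₐ[k] B)

/-- The homomorphism from the ring of polynomials. -/
noncomputable def psi : MvPolynomial (Fin n × Fin 2) k →ₐ[k] B :=
  MvPolynomial.aeval fun q => j q.1 (xe x q.1 q.2)

lemma psi_rename (i : Fin n) (P : MvPolynomial (Fin 2) k) :
    psi x j (MvPolynomial.rename (fun c => (i, c)) P) = j i (MvPolynomial.aeval (xe x i) P) := by
  have h1 : (psi x j).comp (MvPolynomial.rename (fun c => (i, c))) =
      (j i).comp (MvPolynomial.aeval (xe x i)) := by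
    apply MvPolynomial.algHom_ext
    intro c
    rw [AlgHom.comp_apply, AlgHom.comp_apply, MvPolynomial.rename_X, MvPolynomial.aeval_X, psi,
      MvPolynomial.aeval_X]
  exact DFunLike.congr_fun h1 P

/-- The fields are linearly disjoint. -/
theorem disj_abs (hx : AlgebraicIndependent k (fun q : Fin n × Fin 2 => x q.1 q.2))
    (hB : ∀ t : B, t ∈ Submodule.span k (Set.range fun a : ∀ i, pf k x i => ∏ i, j i (a i)))
    (m : B →ₐ[k] K) (hm : ∀ i a, m (j i a) = (a : K)) : Function.Injective m := by
  have hxi : ∀ i, AlgebraicIndependent k (x i) := fun i =>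
    hx.comp (fun c => (i, c)) (Prod.mk_right_injective i)
  have hmp : ∀ b, m (psi x j b) = MvPolynomial.aeval (fun q : Fin n × Fin 2 => x q.1 q.2) b := by
    have h1 : m.comp (psi x j) = MvPolynomial.aeval (fun q : Fin n × Fin 2 => x q.1 q.2) := by
      apply MvPolynomial.algHom_ext
      intro q
      rw [AlgHom.comp_apply, MvPolynomial.aeval_X, psi, MvPolynomial.aeval_X, hm]
      rfl
    exact fun b => DFunLike.congr_fun h1 b
  let D : ∀ i, MvPolynomial (Fin 2) k → B := fun i P => j i (MvPolynomial.aeval (xe x i) P)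
  have hD : ∀ i P, D i P = psi x j (MvPolynomial.rename (fun c => (i, c)) P) := fun i P =>
    (psi_rename x j i P).symm
  have h4 : ∀ d : Fin n → MvPolynomial (Fin 2) k, ∏ i, D i (d i) =
      psi x j (∏ i, MvPolynomial.rename (fun c => (i, c)) (d i)) := by
    intro d
    rw [map_prod]
    exact Finset.prod_congr rfl fun i _ => hD i _
  have hDm : ∀ d1 d2 : Fin n → MvPolynomial (Fin 2) k,
      ∏ i, D i (d1 i * d2 i) = (∏ i, D i (d1 i)) * ∏ i, D i (d2 i) := by
    intro d1 d2
    rw [← Finset.prod_mul_distrib]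
    refine Finset.prod_congr rfl fun i _ => ?_
    change j i (MvPolynomial.aeval (xe x i) (d1 i * d2 i)) = _
    rw [map_mul, map_mul]
  have key : ∀ t : B, ∃ d : Fin n → MvPolynomial (Fin 2) k, (∀ i, d i ≠ 0) ∧
      ∃ b, (∏ i, D i (d i)) * t = psi x j b := by
    intro t
    induction hB t using Submodule.span_induction with
    | mem t ht =>
      obtain ⟨a, rfl⟩ := ht
      choose P Q hQ hPQ using fun i => exists_num x i (hxi i) (a i)
      refine ⟨Q, hQ, ∏ i, MvPolynomial.rename (fun c => (i, c)) (P i), ?_⟩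
      rw [← Finset.prod_mul_distrib, map_prod]
      refine Finset.prod_congr rfl fun i _ => ?_
      rw [psi_rename, ← hPQ i, map_mul]
    | zero => exact ⟨fun _ => 1, fun _ => one_ne_zero, 0, by rw [mul_zero, map_zero]⟩
    | add s t _ _ hs ht =>
      obtain ⟨d1, hd1, b1, h1⟩ := hs
      obtain ⟨d2, hd2, b2, h2⟩ := ht
      refine ⟨fun i => d1 i * d2 i, fun i => mul_ne_zero (hd1 i) (hd2 i),
        (∏ i, MvPolynomial.rename (fun c => (i, c)) (d2 i)) * b1 +
        (∏ i, MvPolynomial.rename (fun c => (i, c)) (d1 i)) * b2, ?_⟩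
      rw [hDm, map_add, map_mul, map_mul, ← h1, ← h2, ← h4, ← h4]
      ring
    | smul c t _ ht =>
      obtain ⟨d, hd, b, h⟩ := ht
      refine ⟨d, hd, c • b, ?_⟩
      rw [mul_smul_comm, h, map_smul]
  rw [injective_iff_map_eq_zero]
  intro t ht
  obtain ⟨d, hd, b, hb⟩ := key t
  have h1 : psi x j b = 0 := by
    have h2 : m (psi x j b) = 0 := by
      rw [← hb, map_mul, ht, mul_zero]
    rw [hmp] at h2
    have h3 : b = 0 := (injective_iff_map_eq_zero _).1 hx b h2
    rw [h3, map_zero]
  rw [h1] at hb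
  have hu : IsUnit (∏ i, D i (d i)) := by
    rw [IsUnit.prod_univ_iff]
    intro i
    refine IsUnit.map (j i) (isUnit_iff_ne_zero.2 ?_)
    intro h0
    have h2 : MvPolynomial.aeval (x i) (d i) = 0 := by
      rw [← coe_aeval, h0]; rfl
    exact hd i ((injective_iff_map_eq_zero _).1 (hxi i) _ h2)
  exact (hu.mul_right_eq_zero).1 hb

end abs

/-- The fields are linearly disjoint. -/
theorem disj_of_ind (hx : AlgebraicIndependent k (fun q : Fin n × Fin 2 => x q.1 q.2)) :
    Function.Injective (mulHom (pf k x)) := by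
  refine disj_abs x (fun i => PiTensorProduct.singleAlgHom (R := k) (A := fun i => pf k x i) i) hx
    ?_ (mulHom (pf k x)) (fun i a => mulHom_single (pf k x) i a)
  intro t
  have h1 : (Set.range fun a : ∀ i, pf k x i => ∏ i, PiTensorProduct.singleAlgHom (R := k)
      (A := fun i => pf k x i) i (a i)) = Set.range (PiTensorProduct.tprod k) := by
    congr 1
    funext a
    exact (Pool.Agent.W410.WT.tprod_eq_prod (A := fun i => pf k x i) a).symm
  rw [h1, PiTensorProduct.span_tprod_eq_top]
  exact Submodule.mem_top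

end

end Pool.Agent.TH188.WP
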