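import Pool.Agent.TH188.WP.Main

/-!
# Purely inseparable covers of products of surfaces given by sums of products: resolution
-/

set_option autoImplicit false
set_option linter.unusedVariables false
set_option linter.unusedSectionVars false

universe u

open Pool.Agent.W558 Polynomial TensorProduct AlgebraicGeometry CategoryTheory

namespace Pool.Agent.TH188.WP

/-- Smooth charts over an affine variety from a model (this is `Pool.Agent.W558.LM_of_fn`, which is
stated in a file with many imports). -/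
theorem LM_of_fn' {k K : Type u} [Field k] [PerfectField k] [Field K] [Algebra k K] {T I G : Type}
    [Finite T] [Fintype I] [Finite G] (M : LM (⊥ : Subalgebra k K) ⊤ T I) (s : G → K)
    (Γ : G → I → ℤ) (hFn : Fn M s Γ) (hR : Frc M)
    (A : Type u) [CommRing A] [IsDomain A] [Algebra k A] [Algebra.FiniteType k A] [Algebra A K]
    [IsScalarTower k A K] [IsFractionRing A K] (a : G → A) (ha : ∀ b, algebraMap A K (a b) = s b)
    (hA : ∀ x : A, IsIntegral (Algebra.adjoin k (Set.range a)) x) :
    ∃ (T I : Type) (_ : Finite T) (_ : Fintype I),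
      Nonempty (LM (IsScalarTower.toAlgHom k A K).range (IsScalarTower.toAlgHom k A K).range
        T I) := by
  let ρ : A →ₐ[k] K := IsScalarTower.toAlgHom k A K
  have hfg : ρ.range.FG := by
    have h1 : (⊤ : Subalgebra k A).FG := Algebra.FiniteType.out
    have h2 := h1.map ρ
    rwa [Algebra.map_top] at h2
  have hs : s = fun b => ρ (a b) := funext fun b => (ha b).symm
  have hint : ∀ y ∈ ρ.range, IsIntegral (Algebra.adjoin k (Set.range s)) y := by
    rintro _ ⟨x, rfl⟩
    have h1 : Algebra.adjoin k (Set.range s) = (Algebra.adjoin k (Set.range a)).map ρ := by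
      rw [AlgHom.map_adjoin, hs, ← Set.range_comp]
      rfl
    rw [h1]
    obtain ⟨B, hB, hB'⟩ := hA x
    let φ : Algebra.adjoin k (Set.range a) →+* (Algebra.adjoin k (Set.range a)).map ρ :=
      { toFun := fun y => ⟨ρ y, ⟨y, y.2, rfl⟩⟩
        map_one' := Subtype.ext (map_one ρ)
        map_mul' := fun y y' => Subtype.ext (map_mul ρ _ _)
        map_zero' := Subtype.ext (map_zero ρ)
        map_add' := fun y y' => Subtype.ext (map_add ρ _ _) }
    refine ⟨B.map φ, hB.map φ, ?_⟩
    rw [eval₂_map]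
    have h2 : ((algebraMap ((Algebra.adjoin k (Set.range a)).map ρ) K).comp φ) =
        ρ.toRingHom.comp (algebraMap (Algebra.adjoin k (Set.range a)) A) :=
      RingHom.ext fun y => rfl
    rw [h2]
    have h3 := congrArg ρ.toRingHom hB'
    rw [hom_eval₂, map_zero] at h3
    exact h3
  have hfr : ∀ y : K, ∃ a ∈ ρ.range, ∃ b ∈ ρ.range, b ≠ 0 ∧ y = a * b⁻¹ := by
    intro y
    obtain ⟨a, b, hb, rfl⟩ := IsFractionRing.div_surjective (A := A) y
    exact ⟨_, ⟨a, rfl⟩, _, ⟨b, rfl⟩, by
      have := nonZeroDivisors.ne_zero hb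
      exact (FaithfulSMul.algebraMap_eq_zero_iff A K).not.2 this, div_eq_mul_inv _ _⟩
  obtain ⟨T', I', hT', hI', M', -⟩ := wd_res k K T I G M s Γ hFn hR ρ.range hfg
    (fun b => ⟨a b, ha b⟩) hint hfr
  exact ⟨T', I', hT', hI', ⟨M'⟩⟩

lemma adjoin_erase_zero {k A : Type u} [Field k] [CommRing A] [Algebra k A] (S : Set A) :
    Algebra.adjoin k {a | a ∈ S ∧ a ≠ 0} = Algebra.adjoin k S := by
  apply le_antisymm
  · exact Algebra.adjoin_mono fun a ha => ha.1
  · rw [Algebra.adjoin_le_iff]
    intro a ha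
    by_cases h0 : a = 0
    · rw [h0]; exact (Algebra.adjoin k {a | a ∈ S ∧ a ≠ 0}).zero_mem
    · exact Algebra.subset_adjoin ⟨ha, h0⟩

section res

variable (p : ℕ) [Fact p.Prime] (k K : Type u) [Field k] [PerfectField k] [CharP k p] [Field K]
  [Algebra k K] {n : ℕ} (E : Fin n → IntermediateField k K)

/-- Resolution of the covers. -/
theorem resolution (h2 : ∀ i, Algebra.trdeg k (E i) = 2) (hM : ∀ i, HasModel k (E i))
    (hdis : Function.Injective (mulHom E)) (J : Type) [Fintype J] (g : J → ∀ i, E i)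
    (hg : ∀ i j j', j ≠ j' → (∃ b, b ^ p = g j i) ∨ ∃ b, b ^ p = g j' i)
    (z : K) (hz : z ^ p = ∑ j, ∏ i, (g j i : K))
    (hgen : IntermediateField.adjoin k (insert z (⋃ i, (E i : Set K))) = ⊤)
    (A : Type u) [CommRing A] [IsDomain A] [Algebra k A] [Algebra.FiniteType k A] [Algebra A K]
    [IsScalarTower k A K] [IsFractionRing A K] (S : Finset A)
    (hS : ∀ a ∈ S, ∃ s : ∀ i, E i, algebraMap A K a = ∏ i, (s i : K))
    (hA : ∀ a : A, IsIntegral (Algebra.adjoin k (S : Set A)) a) :
    IsResolvableVariety (X := Spec (CommRingCat.of A))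
      (Spec.map (CommRingCat.ofHom (algebraMap k A))) := by
  classical
  -- the generators different from zero
  let S' : Finset A := S.filter fun a => a ≠ 0
  have hS' : (S' : Set A) = {a | a ∈ (S : Set A) ∧ a ≠ 0} := by
    ext a; simp [S']
  have hinj := IsFractionRing.injective A K
  obtain ⟨ε⟩ : Nonempty ({a // a ∈ S'} ≃ Fin S'.card) := ⟨S'.equivFin⟩
  have hmem : ∀ b : Fin S'.card, (ε.symm b).1 ∈ S ∧ (ε.symm b).1 ≠ 0 := fun b => by
    have h1 := (ε.symm b).2
    simp only [S', Finset.mem_filter] at h1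
    exact h1
  choose s hs using fun b : Fin S'.card => hS (ε.symm b).1 (hmem b).1
  have hs0 : ∀ b i, s b i ≠ 0 := by
    intro b i h0
    apply (hmem b).2
    apply hinj
    rw [hs b, map_zero]
    exact Finset.prod_eq_zero (Finset.mem_univ i) (by rw [h0]; rfl)
  -- the terms different from zero
  let J' := {j : J // ∀ i, g j i ≠ 0}
  have hz' : ∀ _ : Fintype J', z ^ p = ∑ j : J', ∏ i, (g j.1 i : K) := by
    intro h0
    have h1 : ∑ j, ∏ i, (g j i : K) =
        ∑ j ∈ Finset.univ.filter (fun j => ∀ i, g j i ≠ 0), ∏ i, (g j i : K) := by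
      refine (Finset.sum_filter_of_ne fun j _ hj i hi => hj ?_).symm
      exact Finset.prod_eq_zero (Finset.mem_univ i) (by rw [hi]; rfl)
    rw [hz, h1]
    exact Finset.sum_subtype (Finset.univ.filter fun j => ∀ i, g j i ≠ 0)
      (p := fun j => ∀ i, g j i ≠ 0) (F := h0) (by simp) _
  obtain ⟨T, I, hT, hI, M, Γ, hF, hR⟩ := exists_model p k K E h2 hM hdis J' (fun j => g j.1)
    (fun i j j' hne => hg i j.1 j'.1 fun h => hne (Subtype.ext h)) (fun j => j.2) z hz' hgen
    (Fin S'.card) s hs0
  obtain ⟨T', I', hT', hI', ⟨M'⟩⟩ := LM_of_fn' M (fun b => ∏ i, (s b i : K)) Γ hF hR A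
    (fun b => (ε.symm b).1) (fun b => hs b) (by
      have h1 : Set.range (fun b => (ε.symm b).1) = (S' : Set A) := by
        ext a
        constructor
        · rintro ⟨b, rfl⟩
          exact (ε.symm b).2
        · intro ha
          exact ⟨ε ⟨a, ha⟩, by simp⟩
      rw [h1, hS', adjoin_erase_zero]
      exact hA)
  apply isResolvableVariety_spec
  exact hasResolution_of_LM _ (IsFractionRing.injective A K) M'

end res

end Pool.Agent.TH188.WP
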