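import Pool.Agent.TH188.WP.Nfj
import Pool.Agent.TH188.WP.Fam
import Pool.Agent.W558.WD.Asm5

/-!
# Models of purely inseparable covers given by sums of products
-/

set_option autoImplicit false
set_option linter.unusedVariables false
set_option linter.unusedSectionVars false

universe u

open Pool.Agent.W558 Polynomial

namespace Pool.Agent.TH188.WP

section fn

variable {k L : Type u} [Field k] [Field L] [Algebra k L] {R0 R : Subalgebra k L} {T I G : Type}
  [Fintype I]

/-- The function `x` is locally a monomial. -/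
def IsFn (M : LM R0 R T I) (x : L) : Prop := ∃ γ : I → ℤ, ∀ t, ∃ w, w ≠ 0 ∧ w ∈ M.A t ∧
  w⁻¹ ∈ M.A t ∧ x = w * ∏ i, M.x t i ^ γ i

lemma isFn_one (M : LM R0 R T I) : IsFn M 1 :=
  ⟨0, fun t => ⟨1, one_ne_zero, (M.A t).one_mem, by rw [inv_one]; exact (M.A t).one_mem,
    by simp⟩⟩

lemma IsFn.mul {M : LM R0 R T I} {x y : L} (hx : IsFn M x) (hy : IsFn M y) : IsFn M (x * y) := by
  obtain ⟨γ, h⟩ := hx
  obtain ⟨δ, h'⟩ := hy
  refine ⟨γ + δ, fun t => ?_⟩
  obtain ⟨w, w0, w1, w2, w3⟩ := h t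
  obtain ⟨v, v0, v1, v2, v3⟩ := h' t
  refine ⟨w * v, mul_ne_zero w0 v0, (M.A t).mul_mem w1 v1, ?_, ?_⟩
  · rw [mul_inv]; exact (M.A t).mul_mem w2 v2
  · have h1 := mo_add (M.x0 t) γ δ
    unfold mo at h1
    rw [h1, w3, v3]; ring

lemma isFn_of_closure {M : LM R0 R T I} {g : G → L} {Γ : G → I → ℤ} (hF : Fn M g Γ) {x : L}
    (hx : x ∈ Submonoid.closure (Set.range g)) : IsFn M x := by
  induction hx using Submonoid.closure_induction with
  | mem x hx =>
    obtain ⟨b, rfl⟩ := hx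
    exact ⟨Γ b, fun t => hF b t⟩
  | one => exact isFn_one M
  | mul x y _ _ hx hy => exact hx.mul hy

end fn

/-- The joint normal form of products. -/
theorem gm_pr (p : ℕ) [Fact p.Prime] {k L : Type u} [Field k] [CharP k p] [Field L] [Algebra k L]
    {ι J G : Type} [Fintype ι] [DecidableEq J] {f : ι → L} {g : G → L} (h : GM p k f g)
    (σ : ι → J) (hσ : Function.Surjective σ) (B : J → L)
    (hf : ∀ i, f i ∈ Submonoid.closure (Set.range g))
    (hB : ∀ j, B j ∈ Submonoid.closure (Set.range g)) :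
    GM p k (fun j => B j ^ p * ∏ i ∈ Finset.univ.filter (fun i => σ i = j), f i) g := by
  obtain ⟨T, I, hT, hI, M, n, a, h, Γ, hN, hG, hR⟩ := h
  choose ν hν using fun i => isFn_of_closure hG (hf i)
  choose β hβ using fun j => isFn_of_closure hG (hB j)
  obtain ⟨T', I', hT', hI', M', π, Θ, n', a', h', hO, hN'⟩ := nfj_prod wd_ovp wd_norm p M hR f n a
    h hN ν (fun i t => hν i t) σ hσ B β (fun j t => hβ j t)
  exact ⟨T', I', hT', hI', M', n', a', h', _, hN', hG.ov hO, hR.ov hO⟩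

/-- Models of the purely inseparable extension generated by the `p`-th root of a sum of
products. -/
theorem root_model (p : ℕ) [Fact p.Prime] (k L K : Type u) [Field k] [PerfectField k] [CharP k p]
    [Field L] [Field K] [Algebra k L] [Algebra k K] [Algebra L K] [IsScalarTower k L K]
    {ι J G : Type} [Fintype ι] [Fintype J] [DecidableEq J] {f : ι → L} {g : G → L}
    (h : GM p k f g) (σ : ι → J) (hσ : Function.Surjective σ) (B : J → L)
    (hf : ∀ i, f i ∈ Submonoid.closure (Set.range g))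
    (hB : ∀ j, B j ∈ Submonoid.closure (Set.range g)) (a0 F : L)
    (hF : F = ∑ j, B j ^ p * ∏ i ∈ Finset.univ.filter (fun i => σ i = j), f i + a0 ^ p)
    (hnp : ∀ b : L, b ^ p ≠ F) (z : K) (hz : z ^ p = algebraMap L K F)
    (hgen : ∀ w : K, ∃ P : L[X], aeval z P = w) :
    ∃ (T I : Type) (_ : Finite T) (_ : Fintype I) (M : LM (⊥ : Subalgebra k K) ⊤ T I)
      (Γ : G → I → ℤ), Fn M (fun b => algebraMap L K (g b)) Γ ∧ Frc M := by
  have hp : p.Prime := Fact.out
  have hcL : CharP L p := charP_of_injective_algebraMap (algebraMap k L).injective p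
  have hcK : CharP K p := charP_of_injective_algebraMap (algebraMap k K).injective p
  have hJ : Nonempty J := by
    by_contra hcon
    rw [not_nonempty_iff] at hcon
    apply hnp a0
    rw [hF, Fintype.sum_empty, zero_add]
  set P : J → L := fun j => B j ^ p * ∏ i ∈ Finset.univ.filter (fun i => σ i = j), f i with hP
  let F0 : L := ∑ j, P j
  have hF0 : F = F0 + a0 ^ p := hF
  obtain ⟨T, I, hT, hI, M, n, a, h, Γ, hN, hG, hR⟩ := gm_sum wd_sum (gm_pr p h σ hσ B hf hB) F0
    (fun h0 => Finset.sum_congr (by ext i; simp only [Finset.mem_univ]) fun _ _ => rfl)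
  have hnp0 : ∀ b : L, b ^ p ≠ F0 := by
    intro b hb
    apply hnp (b + a0)
    rw [add_pow_char, hb, hF0]
  let w : K := z - algebraMap L K a0
  have hw : w ^ p = algebraMap L K F0 := by
    change (z - algebraMap L K a0) ^ p = _
    rw [sub_pow_char, hz, hF0, map_add, map_pow]
    ring
  refine exists_LM_root wd_bun wd_ppr wd_pcut p k L K M F0 n a h g Γ hN hR hG hnp0 w hw ?_
  intro y
  obtain ⟨P, rfl⟩ := hgen y
  refine ⟨P.comp (X + C a0), ?_⟩
  have e : w + algebraMap L K a0 = z := sub_add_cancel z _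
  rw [aeval_comp, map_add, aeval_X, aeval_C, e]

/-- Giraud's theorem for surfaces. -/
theorem gm_surf (p : ℕ) [Fact p.Prime] (k E : Type u) [Field k] [PerfectField k] [CharP k p]
    [Field E] [Algebra k E] (h2 : Algebra.trdeg k E = 2) (hM : HasModel k E)
    [Algebra.EssFiniteType k E] (ι G : Type) [Subsingleton ι] [Finite G] (f : ι → E)
    (hf : ∀ i, ¬ ∃ b, b ^ p = f i) (c : G → E) (hc : ∀ b, c b ≠ 0) : GM p k f c := by
  obtain ⟨s⟩ := all_init k E hM
  rcases isEmpty_or_nonempty ι with hι | ⟨⟨i0⟩⟩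
  · obtain ⟨s', Γ, hF⟩ := all_log k E h2 s G c hc
    refine ⟨s'.T, s'.I, s'.finT, s'.finI, s'.M, fun j => isEmptyElim j, fun _ j => isEmptyElim j,
      fun _ j => isEmptyElim j, Γ, ⟨fun _ j => isEmptyElim j, fun _ j => isEmptyElim j,
      fun _ κ _ _ φ j => isEmptyElim j⟩, hF, fun t => (s'.sf t).fr⟩
  · have hfi : ∀ i, f i = f i0 := fun i => by rw [Subsingleton.elim i i0]
    have hD : ∃ D : Derivation k E E, D (f i0) ≠ 0 := by
      by_contra hcon
      push Not at hcon
      exact hf i0 (wd_ker p k E (f i0) hcon)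
    obtain ⟨s', Γ, hF, hCO⟩ := wd_gin k E h2 s G c hc (f i0) hD
    obtain ⟨s'', Γ', hF', hCO', hgd⟩ := wd_gir0 k E h2 s' G c Γ hF (f i0) hD hCO
    obtain ⟨T, I, hT, hI, M, Γ'', n, a, h, hFn, hN, hR⟩ :=
      wd_loc p k E h2 s'' G c Γ' hF' (f i0) hCO' hgd
    refine ⟨T, I, hT, hI, M, fun _ => n, fun t _ => a t, fun t _ => h t, Γ'',
      ⟨fun t _ => hN.hA t, fun t i => by rw [hfi i]; exact hN.eq t, ?_⟩, hFn, hR⟩
    intro t κ _ _ φ j
    obtain ⟨v, hv⟩ := hN.ln t κ φ
    exact ⟨v, hv, fun l hl => absurd (Subsingleton.elim l j) hl⟩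

end Pool.Agent.TH188.WP
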