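import Pool.Agent.TH188.WP.Asm

/-!
# Purely inseparable covers of products of surfaces given by sums of products
-/

set_option autoImplicit false
set_option linter.unusedVariables false
set_option linter.unusedSectionVars false

universe u

open Pool.Agent.W558 Polynomial TensorProduct

namespace Pool.Agent.TH188.WP

section comb

variable (p : ℕ) [Fact p.Prime] {L : Type u} [Field L] [CharP L p] {n : ℕ} {E : Fin n → Type u}
  [∀ i, Field (E i)] (e : ∀ i, E i →+* L) {J : Type} [Fintype J] (g : J → ∀ i, E i)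

/-- The product of the factors which are not `p`-th powers. -/
lemma prod_fiber (hg0 : ∀ j i, g j i ≠ 0) (bb : J → ∀ i, E i)
    (hbb : ∀ j i, (∃ b, b ^ p = g j i) → bb j i ^ p = g j i)
    (hbb' : ∀ j i, (¬ ∃ b, b ^ p = g j i) → bb j i = 1)
    [∀ i, Fintype {j : J // ¬ ∃ b, b ^ p = g j i}]
    [DecidableEq {j : J // ∃ i, ¬ ∃ b, b ^ p = g j i}]
    (σ : (Σ i, {j : J // ¬ ∃ b, b ^ p = g j i}) → {j : J // ∃ i, ¬ ∃ b, b ^ p = g j i})
    (hσ : ∀ q, (σ q).1 = q.2.1) (j : {j : J // ∃ i, ¬ ∃ b, b ^ p = g j i}) :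
    ∏ i, e i (g j.1 i) = (∏ i, e i (bb j.1 i)) ^ p *
      ∏ q ∈ Finset.univ.filter (fun q => σ q = j), e q.1 (g q.2.1 q.1) := by
  classical
  rw [Finset.prod_filter, Fintype.prod_sigma, ← Finset.prod_pow, ← Finset.prod_mul_distrib]
  refine Finset.prod_congr rfl fun i _ => ?_
  by_cases h : ∃ b, b ^ p = g j.1 i
  · rw [← map_pow, hbb j.1 i h, Finset.prod_eq_one, mul_one]
    intro l _
    rw [if_neg]
    intro hl
    have h1 : l.1 = j.1 := by rw [← hl, hσ]
    exact l.2 (h1 ▸ h)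
  · rw [hbb' j.1 i h, map_one, one_pow, one_mul, Fintype.prod_eq_single ⟨j.1, h⟩]
    · rw [if_pos]
      exact Subtype.ext (hσ _)
    · intro l hl
      rw [if_neg]
      intro hl'
      apply hl
      apply Subtype.ext
      change l.1 = j.1
      rw [← hl', hσ]

/-- The decomposition of the sum. -/
lemma sum_split (hg0 : ∀ j i, g j i ≠ 0) (bb : J → ∀ i, E i)
    (hbb : ∀ j i, (∃ b, b ^ p = g j i) → bb j i ^ p = g j i)
    (hbb' : ∀ j i, (¬ ∃ b, b ^ p = g j i) → bb j i = 1)
    [∀ i, Fintype {j : J // ¬ ∃ b, b ^ p = g j i}]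
    [Fintype {j : J // ∃ i, ¬ ∃ b, b ^ p = g j i}]
    [DecidableEq {j : J // ∃ i, ¬ ∃ b, b ^ p = g j i}]
    (σ : (Σ i, {j : J // ¬ ∃ b, b ^ p = g j i}) → {j : J // ∃ i, ¬ ∃ b, b ^ p = g j i})
    (hσ : ∀ q, (σ q).1 = q.2.1) :
    ∃ a0 : L, ∑ j, ∏ i, e i (g j i) =
      ∑ j : {j : J // ∃ i, ¬ ∃ b, b ^ p = g j i}, (∏ i, e i (bb j.1 i)) ^ p *
        ∏ q ∈ Finset.univ.filter (fun q => σ q = j), e q.1 (g q.2.1 q.1) + a0 ^ p := by
  classical
  have hp : p.Prime := Fact.out
  refine ⟨∑ j, if ∃ i, ¬ ∃ b, b ^ p = g j i then 0 else ∏ i, e i (bb j i), ?_⟩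
  rw [sum_pow_char]
  have h1 : ∀ j, ∏ i, e i (g j i) =
      (if ∃ i, ¬ ∃ b, b ^ p = g j i then ∏ i, e i (g j i) else 0) +
        (if ∃ i, ¬ ∃ b, b ^ p = g j i then 0 else ∏ i, e i (bb j i)) ^ p := by
    intro j
    split_ifs with h
    · rw [zero_pow hp.ne_zero, add_zero]
    · push Not at h
      rw [zero_add, ← Finset.prod_pow]
      refine Finset.prod_congr rfl fun i _ => ?_
      rw [← map_pow, hbb j i (h i)]
  rw [Finset.sum_congr rfl fun j _ => h1 j, Finset.sum_add_distrib]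
  congr 1
  rw [← Finset.sum_filter]
  rw [Finset.sum_subtype (Finset.univ.filter fun j => ∃ i, ¬ ∃ b, b ^ p = g j i)
    (p := fun j => ∃ i, ¬ ∃ b, b ^ p = g j i) (F := inferInstance) (by simp)]
  refine Finset.sum_congr (by ext; simp) fun j _ => ?_
  exact prod_fiber p e g hg0 bb hbb hbb' σ hσ j

end comb

section main

variable (p : ℕ) [Fact p.Prime] (k K : Type u) [Field k] [PerfectField k] [CharP k p] [Field K]
  [Algebra k K] {n : ℕ} (E : Fin n → IntermediateField k K)

lemma adjoin_root_gen (z : K) (L : IntermediateField k K) (F : L)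
    (hz : z ^ p = (F : K))
    (hgen : ∀ K1 : IntermediateField k K, L ≤ K1 → z ∈ K1 → K1 = ⊤) (y : K) :
    ∃ P : L[X], aeval z P = y := by
  have hp : p.Prime := Fact.out
  have hint : IsIntegral L z := by
    refine ⟨X ^ p - C F, monic_X_pow_sub_C F hp.ne_zero, ?_⟩
    rw [← aeval_def, map_sub, map_pow, aeval_X, aeval_C, hz]
    exact sub_self _
  have htop : IntermediateField.adjoin L {z} = ⊤ := by
    have h1 := hgen ((IntermediateField.adjoin L {z}).restrictScalars k) (by
      intro x hx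
      exact (IntermediateField.adjoin L {z}).algebraMap_mem ⟨x, hx⟩)
      (IntermediateField.mem_adjoin_simple_self L z)
    rw [eq_top_iff]
    intro y _
    have h2 : y ∈ (IntermediateField.adjoin L {z}).restrictScalars k := by
      rw [h1]; trivial
    exact h2
  have h8 : y ∈ Algebra.adjoin L {z} := by
    have h9 : y ∈ (IntermediateField.adjoin L {z}).toSubalgebra := by
      rw [htop]; trivial
    rwa [IntermediateField.adjoin_simple_toSubalgebra_of_isAlgebraic hint.isAlgebraic] at h9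
  rw [Algebra.adjoin_singleton_eq_range_aeval] at h8
  exact h8

/-- Models of the covers. -/
theorem exists_model (h2 : ∀ i, Algebra.trdeg k (E i) = 2) (hM : ∀ i, HasModel k (E i))
    (hdis : Function.Injective (mulHom E)) (J : Type) [Finite J] (g : J → ∀ i, E i)
    (hg : ∀ i j j', j ≠ j' → (∃ b, b ^ p = g j i) ∨ ∃ b, b ^ p = g j' i)
    (hg0 : ∀ j i, g j i ≠ 0)
    (z : K) (hz : ∀ _ : Fintype J, z ^ p = ∑ j, ∏ i, (g j i : K))
    (hgen : IntermediateField.adjoin k (insert z (⋃ i, (E i : Set K))) = ⊤)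
    (S : Type) [Finite S] (s : S → ∀ i, E i) (hs : ∀ b i, s b i ≠ 0) :
    ∃ (T I : Type) (_ : Finite T) (_ : Fintype I) (M : LM (⊥ : Subalgebra k K) ⊤ T I)
      (Γ : S → I → ℤ), Fn M (fun b => ∏ i, (s b i : K)) Γ ∧ Frc M := by
  classical
  have hp : p.Prime := Fact.out
  have : Fintype J := Fintype.ofFinite J
  have hz := hz this
  -- the compositum
  let L := cps E
  let e : ∀ i, E i →ₐ[k] L := fun i =>
    (E i).val.codRestrict L.toSubalgebra (fun a => mem_cps E i a)
  let φ : (⨂[k] i, E i) →ₐ[k] L := (mulHom E).codRestrict L.toSubalgebra (mulHom_mem E)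
  have he : ∀ i a, algebraMap L K (e i a) = (a : K) := fun i a => rfl
  have hφ : ∀ i a, φ (PiTensorProduct.singleAlgHom (R := k) (A := fun i => E i) i a) = e i a :=
    fun i a => Subtype.ext (mulHom_single E i a)
  have hinj : Function.Injective φ := fun x y h => hdis (congrArg Subtype.val h)
  have hfr : ∀ x : L, ∃ a b, φ b ≠ 0 ∧ x * φ b = φ a := by
    intro x
    obtain ⟨a, b, hb, h⟩ := cps_frac E x x.2
    exact ⟨a, b, fun h0 => hb (congrArg Subtype.val h0), Subtype.ext h⟩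
  have hcL : CharP L p := charP_of_injective_algebraMap (algebraMap k L).injective p
  have hcK : CharP K p := charP_of_injective_algebraMap (algebraMap k K).injective p
  -- roots
  have hroot : ∀ (j : J) i, ∃ b : E i, b ≠ 0 ∧ ((∃ b, b ^ p = g j i) → b ^ p = g j i) ∧
      ((¬ ∃ b, b ^ p = g j i) → b = 1) := by
    intro j i
    by_cases h : ∃ b, b ^ p = g j i
    · obtain ⟨b, hb⟩ := h
      refine ⟨b, ?_, fun _ => hb, fun h => absurd ⟨b, hb⟩ h⟩
      rintro rfl
      rw [zero_pow hp.ne_zero] at hb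
      exact hg0 j i hb.symm
    · exact ⟨1, one_ne_zero, fun h' => absurd h' h, fun _ => rfl⟩
  choose bb hbb0 hbb hbb' using hroot
  let ι : Fin n → Type := fun i => {j : J // ¬ ∃ b, b ^ p = g j i}
  have hιs : ∀ i, Subsingleton (ι i) := by
    intro i
    refine ⟨fun a b => ?_⟩
    by_contra hne
    have h1 : a.1 ≠ b.1 := fun h => hne (Subtype.ext h)
    rcases hg i a.1 b.1 h1 with h | h
    · exact a.2 h
    · exact b.2 h
  let f : ∀ i, ι i → E i := fun i l => g l.1 i
  have hf : ∀ i l, ¬ ∃ b, b ^ p = f i l := fun i l => l.2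
  let G := J ⊕ S
  let c : ∀ i, (J ⊕ J) ⊕ S → E i := fun i => Sum.elim (Sum.elim (fun j => g j i) fun j => bb j i)
    (fun b => s b i)
  have hc : ∀ i b, c i b ≠ 0 := by
    rintro i ((j | j) | b)
    · exact hg0 j i
    · exact hbb0 j i
    · exact hs b i
  -- the end of the proof
  have hfin : ∀ (T I : Type) (_ : Finite T) (_ : Fintype I) (M : LM (⊥ : Subalgebra k K) ⊤ T I)
      (Γ : Fin n × ((J ⊕ J) ⊕ S) → I → ℤ), Fn M (fun q => ((c q.1 q.2 : E q.1) : K)) Γ → Frc M →
      ∃ (T I : Type) (_ : Finite T) (_ : Fintype I) (M : LM (⊥ : Subalgebra k K) ⊤ T I)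
      (Γ : S → I → ℤ), Fn M (fun b => ∏ i, (s b i : K)) Γ ∧ Frc M := by
    intro T I hT hI M Γ hF hR
    have h1 := Fn.prod (J := Fin n) (G := (J ⊕ J) ⊕ S) hF
    exact ⟨T, I, hT, hI, M, _, fun b t => h1 (Sum.inr b) t, hR⟩
  by_cases hzL : z ∈ cps E
  · -- the root is contained in the compositum
    have htop : cps E = ⊤ := by
      rw [eq_top_iff, ← hgen, IntermediateField.adjoin_le_iff]
      rintro y (hy | hy)
      · rw [hy]; exact hzL
      · exact IntermediateField.subset_adjoin k _ hy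
    have hGM := gm_surfaces p k K E K (fun i => (E i).val) (mulHom E) (fun i a =>
      mulHom_single E i a) hdis (fun x => cps_frac E x (by rw [htop]; trivial)) h2 hM ι _ f hf c hc
    obtain ⟨T, I, hT, hI, M, n, a, h, Γ, hN, hG, hR⟩ := hGM
    exact hfin T I hT hI M Γ hG hR
  · let F : L := ∑ j, ∏ i, e i (g j i)
    have hFK : (F : K) = z ^ p := by
      rw [hz]
      change algebraMap L K (∑ j, ∏ i, e i (g j i)) = _
      rw [map_sum]
      refine Finset.sum_congr rfl fun j _ => ?_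
      rw [map_prod]
      rfl
    have hnp : ∀ b : L, b ^ p ≠ F := by
      intro b hb
      have h1 : (b : K) ^ p = z ^ p := by rw [← hFK, ← hb]; rfl
      have h2 : (b : K) = z := by
        have h3 : ((b : K) - z) ^ p = 0 := by rw [sub_pow_char, h1, sub_self]
        exact sub_eq_zero.1 (pow_eq_zero_iff hp.ne_zero |>.1 h3)
      apply hzL
      rw [← h2]
      exact b.2
    have hGM := gm_surfaces p k K E L e φ hφ hinj hfr h2 hM ι _ f hf c hc
    let σ : (Σ i, ι i) → {j : J // ∃ i, ¬ ∃ b, b ^ p = g j i} := fun q => ⟨q.2.1, q.1, q.2.2⟩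
    have hσs : Function.Surjective σ := by
      rintro ⟨j, i, hji⟩
      exact ⟨⟨i, ⟨j, hji⟩⟩, rfl⟩
    obtain ⟨a0, ha0⟩ := sum_split p (fun i => (e i : E i →+* L)) g hg0 bb hbb hbb' σ
      (fun q => rfl)
    have hcl : ∀ i (b : (J ⊕ J) ⊕ S), e i (c i b) ∈ Submonoid.closure
        (Set.range fun q : Fin n × ((J ⊕ J) ⊕ S) => e q.1 (c q.1 q.2)) := fun i b =>
      Submonoid.subset_closure ⟨(i, b), rfl⟩
    obtain ⟨T, I, hT, hI, M, Γ, hF, hR⟩ := root_model p k L K hGM σ hσs
      (fun j => ∏ i, e i (bb j.1 i)) (fun q => hcl q.1 (Sum.inl (Sum.inl q.2.1)))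
      (fun j => Submonoid.prod_mem _ fun i _ => hcl i (Sum.inl (Sum.inr j.1))) a0 F ha0 hnp z
      hFK.symm (adjoin_root_gen p k K z L F hFK.symm (by
        intro K1 hK1 hzK1
        rw [eq_top_iff, ← hgen, IntermediateField.adjoin_le_iff]
        rintro y (hy | hy)
        · rw [hy]; exact hzK1
        · exact hK1 (IntermediateField.subset_adjoin k _ hy)))
    exact hfin T I hT hI M Γ hF hR

end main

end Pool.Agent.TH188.WP
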