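import Pool.Agent.TH188.WP.Core

/-!
# Purely inseparable covers of products of surfaces given by sums of products: models
-/

set_option autoImplicit false
set_option linter.unusedVariables false
set_option linter.unusedSectionVars false

universe u

open Pool.Agent.W558 Polynomial TensorProduct

namespace Pool.Agent.TH188.WP

lemma essFinite_of_hasModel {k E : Type u} [Field k] [Field E] [Algebra k E] (h : HasModel k E) :
    Algebra.EssFiniteType k E := by
  obtain ⟨N, H, h0, hs⟩ := h
  let A := Algebra.adjoin k (Set.range fun j => H j / H 0)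
  have hfr : IsFractionRing A E := by
    refine IsFractionRing.of_field _ _ fun x => ?_
    obtain ⟨a, ha, b, hb, hb0, h1⟩ := (hs 0).fr x
    refine ⟨⟨a, ha⟩, ⟨b, hb⟩, ?_⟩
    rw [h1]
    exact (div_eq_mul_inv _ _).symm
  have hft : Algebra.FiniteType k A :=
    (Subalgebra.fg_iff_finiteType A).1 ⟨Set.Finite.toFinset (Set.finite_range _), by
      rw [Set.Finite.coe_toFinset]⟩
  have hess : Algebra.EssFiniteType A E := Algebra.EssFiniteType.of_isLocalization E (nonZeroDivisors A)
  exact Algebra.EssFiniteType.comp k A E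

section prod

variable {k K : Type u} [Field k] [Field K] [Algebra k K] {n : ℕ} (E : Fin n → IntermediateField k K)

/-- The multilinear map which maps `(x 1, ..., x n)`, `x i ∈ E i`, to the product of the `x i`. -/
noncomputable def mulMap : MultilinearMap k (fun i => E i) K :=
  (MultilinearMap.mkPiAlgebra k (Fin n) K).compLinearMap fun i => (E i).val.toLinearMap

lemma mulMap_apply (x : ∀ i, E i) : mulMap E x = ∏ i, (x i : K) := by
  change MultilinearMap.mkPiAlgebra k (Fin n) K (fun i => ((x i : E i) : K)) = _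
  rw [MultilinearMap.mkPiAlgebra_apply]

/-- The product homomorphism. -/
noncomputable def mulHom : (⨂[k] i, E i) →ₐ[k] K :=
  PiTensorProduct.liftAlgHom (mulMap E)
    (by rw [mulMap_apply]; simp)
    (by
      intro x y
      rw [mulMap_apply, mulMap_apply, mulMap_apply, ← Finset.prod_mul_distrib]
      exact Finset.prod_congr rfl fun i _ => rfl)

lemma mulHom_eq (x : ⨂[k] i, E i) : mulHom E x = PiTensorProduct.lift (mulMap E) x := rfl

lemma mulHom_single (i : Fin n) (a : E i) :
    mulHom E (PiTensorProduct.singleAlgHom (R := k) (A := fun i => E i) i a) = (a : K) := by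
  change PiTensorProduct.lift (mulMap E) (PiTensorProduct.tprod k (MonoidHom.mulSingle _ i a)) = _
  rw [PiTensorProduct.lift.tprod, mulMap_apply, Finset.prod_eq_single i]
  · rw [MonoidHom.mulSingle_apply, Pi.mulSingle_eq_same]
  · intro l _ hl
    rw [MonoidHom.mulSingle_apply, Pi.mulSingle_eq_of_ne hl]
    rfl
  · intro h
    exact absurd (Finset.mem_univ i) h

/-- The compositum. -/
abbrev cps : IntermediateField k K := IntermediateField.adjoin k (⋃ i, (E i : Set K))

lemma mem_cps (i : Fin n) (a : E i) : (a : K) ∈ cps E :=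
  IntermediateField.subset_adjoin k _ (Set.mem_iUnion.2 ⟨i, a.2⟩)

lemma mulHom_mem (x : ⨂[k] i, E i) : mulHom E x ∈ cps E := by
  have h1 : (⊤ : Subalgebra k (⨂[k] i, E i)) ≤ (cps E).toSubalgebra.comap (mulHom E) := by
    rw [← WT.pi_adjoin, Algebra.adjoin_le_iff]
    rintro _ h
    obtain ⟨i, a, rfl⟩ := Set.mem_iUnion.1 h
    change mulHom E _ ∈ cps E
    rw [mulHom_single]
    exact mem_cps E i a
  exact h1 (Algebra.mem_top (x := x))

lemma cps_frac (x : K) (hx : x ∈ cps E) :
    ∃ a b : ⨂[k] i, E i, mulHom E b ≠ 0 ∧ x * mulHom E b = mulHom E a := by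
  have hrange : ∀ x ∈ Algebra.adjoin k (⋃ i, (E i : Set K)), ∃ r, mulHom E r = x := by
    intro x hx
    have h1 : Algebra.adjoin k (⋃ i, (E i : Set K)) ≤ (mulHom E).range := by
      rw [Algebra.adjoin_le_iff]
      intro y hy
      obtain ⟨i, hi⟩ := Set.mem_iUnion.1 hy
      exact ⟨_, mulHom_single E i ⟨y, hi⟩⟩
    obtain ⟨r, hr⟩ := h1 hx
    exact ⟨r, hr⟩
  obtain ⟨r, hr, s, hs, hx⟩ := (IntermediateField.mem_adjoin_iff_div).1 hx
  obtain ⟨r', hr'⟩ := hrange r hr
  obtain ⟨s', hs'⟩ := hrange s hs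
  by_cases h0 : s = 0
  · have e1 : mulHom E 1 = 1 := (mulHom E).toRingHom.map_one
    have e0 : mulHom E 0 = 0 := (mulHom E).toRingHom.map_zero
    refine ⟨0, 1, ?_, ?_⟩
    · rw [e1]; exact one_ne_zero
    · rw [hx, h0, div_zero, zero_mul, e0]
  · refine ⟨r', s', by rw [hs']; exact h0, ?_⟩
    rw [hx, hs', hr', div_mul_cancel₀ _ h0]

end prod

section main

variable (p : ℕ) [Fact p.Prime] (k K : Type u) [Field k] [PerfectField k] [CharP k p] [Field K]
  [Algebra k K] {n : ℕ} (E : Fin n → IntermediateField k K)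

/-- The joint normal form on the product of the surfaces. -/
theorem gm_surfaces (L : Type u) [Field L] [Algebra k L] (e : ∀ i, E i →ₐ[k] L)
    (φ : (⨂[k] i, E i) →ₐ[k] L)
    (hφ : ∀ i a, φ (PiTensorProduct.singleAlgHom (R := k) (A := fun i => E i) i a) = e i a)
    (hinj : Function.Injective φ) (hfr : ∀ x : L, ∃ a b, φ b ≠ 0 ∧ x * φ b = φ a)
    (h2 : ∀ i, Algebra.trdeg k (E i) = 2) (hM : ∀ i, HasModel k (E i))
    (ι : Fin n → Type) [∀ i, Subsingleton (ι i)] (G : Type) [Finite G]
    (f : ∀ i, ι i → E i) (hf : ∀ i l, ¬ ∃ b, b ^ p = f i l)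
    (c : ∀ i, G → E i) (hc : ∀ i b, c i b ≠ 0) :
    GM p k (fun q : Σ i, ι i => e q.1 (f q.1 q.2))
      (fun q : Fin n × G => e q.1 (c q.1 q.2)) := by
  refine Fam.main wd_prod p k L n (fun i => E i) e φ hφ hinj hfr G ι f c fun i => ?_
  have := essFinite_of_hasModel (hM i)
  exact gm_surf p k (E i) (h2 i) (hM i) (ι i) G (f i) (hf i) (c i) (hc i)

end main

end Pool.Agent.TH188.WP
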