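import Pool.Agent.TH188.WP.Om

/-!
# Products of functions in normal form on a chart
-/

set_option autoImplicit false
set_option linter.unusedVariables false
set_option linter.unusedSectionVars false

universe u

open Pool.Agent.W558

namespace Pool.Agent.TH188.WP

section mo

variable {K : Type u} [Field K] {I : Type} [Fintype I] {x : I → K}

/-- The monomial with the exponents `E`. -/
noncomputable def mo (x : I → K) (E : I → ℤ) : K := ∏ i, x i ^ E i

lemma mo_add (hx0 : ∀ i, x i ≠ 0) (E F : I → ℤ) : mo x (E + F) = mo x E * mo x F := by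
  unfold mo
  rw [← Finset.prod_mul_distrib]
  exact Finset.prod_congr rfl fun i _ => zpow_add₀ (hx0 i) _ _

lemma mo_ne (hx0 : ∀ i, x i ≠ 0) (E : I → ℤ) : mo x E ≠ 0 :=
  Finset.prod_ne_zero_iff.2 fun i _ => zpow_ne_zero _ (hx0 i)

lemma mo_zero : mo x 0 = 1 := by
  unfold mo
  simp

lemma mo_sum (hx0 : ∀ i, x i ≠ 0) {ι : Type} (S : Finset ι) (V : ι → I → ℤ) :
    mo x (∑ i ∈ S, V i) = ∏ i ∈ S, mo x (V i) := by
  classical
  induction S using Finset.induction_on with
  | empty => rw [Finset.sum_empty, Finset.prod_empty, mo_zero]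
  | insert a s ha ih => rw [Finset.sum_insert ha, Finset.prod_insert ha, mo_add hx0, ih]

lemma mo_mul_pow (hx0 : ∀ i, x i ≠ 0) (p : ℕ) (E : I → ℤ) :
    mo x (fun i => (p : ℤ) * E i) = mo x E ^ p := by
  unfold mo
  rw [← Finset.prod_pow]
  refine Finset.prod_congr rfl fun i _ => ?_
  rw [← zpow_natCast, ← zpow_mul, mul_comm]

end mo

section chart

variable {k K : Type u} [Field k] [Field K] [Algebra k K] {A : Subalgebra k K} {I : Type}
  [Fintype I] {x : I → K}

/-- An element without zeros is a unit. -/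
lemma inv_mem_of_forall (m : A) (hm0 : (m : K) ≠ 0)
    (h : ∀ (κ : Type u) [Field κ] [Algebra k κ] (φ : A →ₐ[k] κ), φ m ≠ 0) : (m : K)⁻¹ ∈ A := by
  have hu : IsUnit m := by
    by_contra hcon
    obtain ⟨M, hM, hmM⟩ := exists_max_ideal_of_mem_nonunits hcon
    let _ : Field (A ⧸ M) := Ideal.Quotient.field M
    exact h (A ⧸ M) (Ideal.Quotient.mkₐ k M) (Ideal.Quotient.eq_zero_iff_mem.2 hmM)
  obtain ⟨w, hw⟩ := hu.exists_right_inv
  have h1 : (m : K) * w = 1 := congrArg Subtype.val hw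
  rw [← eq_inv_of_mul_eq_one_right h1]
  exact w.2

/-- The exponents of the differences are nonnegative. -/
theorem E_nonneg (p : ℕ) [Fact p.Prime] [CharP k p] [Algebra.Smooth k A]
    (hR : ∀ z : K, z ^ p ∈ A → z ∈ A) (hS : SNC A x) (hx : ∀ i, x i ∈ A) (hx0 : ∀ i, x i ≠ 0)
    (V E : I → ℤ) (u h : A) (a : K) (heq : mo x V * (u : K) = a ^ p + mo x (V + E) * (h : K))
    (hne : ∀ (κ : Type u) [Field κ] [Algebra k κ] (φ : A →ₐ[k] κ),
      ∃ v : LT φ x, ow v (V + E) h ≠ 0)
    (hcmp : (∀ l, 0 ≤ E l ∨ (x l)⁻¹ ∈ A) ∨ (∀ l, E l ≤ 0 ∨ (x l)⁻¹ ∈ A)) :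
    ∀ l, 0 ≤ E l ∨ (x l)⁻¹ ∈ A := by
  rcases hcmp with hcmp | hcmp
  · exact hcmp
  have hE' : ∀ l, 0 ≤ (-E) l ∨ (x l)⁻¹ ∈ A := by
    intro l
    rcases hcmp l with h1 | h1
    · left; rw [Pi.neg_apply]; omega
    · right; exact h1
  let m : A := ⟨mo x (-E), mon_mem hx _ hE'⟩
  have hm0 : (m : K) ≠ 0 := mo_ne hx0 _
  have hml : ∀ (κ : Type u) [Field κ] [Algebra k κ] (φ : A →ₐ[k] κ) (v : LT φ x),
      LM' v (-E) m := fun κ _ _ φ v => mon_log v hx hx0 _ hE'
  have hc : mo x (V + E) * ((m * u - h : A) : K) = a ^ p := by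
    have h1 : ((m * u - h : A) : K) = mo x (-E) * u - h := rfl
    have h2 : mo x (V + E) * mo x (-E) = mo x V := by
      rw [← mo_add hx0]; congr 1; abel
    rw [h1, mul_sub, ← mul_assoc, h2, heq]
    ring
  have hmu : (m : K)⁻¹ ∈ A := by
    refine inv_mem_of_forall m hm0 ?_
    intro κ _ _ φ hφ
    obtain ⟨v, hv⟩ := hne κ φ
    apply hv
    have h1 := ow_root p hR hS hx hx0 v (V + E) (m * u - h) a hc
    rw [ow_sub, ow_mon v (hml κ φ v), hφ, zero_mul, zero_sub, neg_eq_zero] at h1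
    exact h1
  intro l
  by_cases hl : 0 ≤ E l
  · exact Or.inl hl
  right
  -- `x l` divides `m`
  classical
  have h1 : (x l)⁻¹ = (m : K)⁻¹ * (mo x (-E + fun i => if i = l then -1 else 0)) := by
    have h2 : mo x (fun i => if i = l then (-1 : ℤ) else 0) = (x l)⁻¹ := by
      unfold mo
      rw [Finset.prod_eq_single l]
      · simp
      · intro b _ hb
        simp [hb]
      · intro h; exact absurd (Finset.mem_univ l) h
    rw [mo_add hx0, h2, ← mul_assoc, inv_mul_cancel₀ hm0, one_mul]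
  rw [h1]
  refine A.mul_mem hmu (mon_mem hx _ ?_)
  intro i
  rw [Pi.add_apply]
  by_cases hi : i = l
  · subst hi
    left
    simp only [if_true, Pi.neg_apply]
    omega
  · simp only [hi, if_false, add_zero]
    exact hE' i

/-- The normal form of a product. -/
theorem exists_g (p : ℕ) [Fact p.Prime] [CharP k p] [Algebra.Smooth k A]
    (hR : ∀ z : K, z ^ p ∈ A → z ∈ A) (hS : SNC A x) (hx : ∀ i, x i ∈ A) (hx0 : ∀ i, x i ≠ 0)
    {ι : Type} (V E : ι → I → ℤ) (u h m c : ι → A) (a : ι → K)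
    (hu : ∀ i, (u i : K)⁻¹ ∈ A) (hu0 : ∀ i, (u i : K) ≠ 0)
    (hE : ∀ i l, 0 ≤ E i l ∨ (x l)⁻¹ ∈ A)
    (hc : ∀ i, (c i : K) = u i - mo x (E i) * h i) (hca : ∀ i, mo x (V i) * c i = a i ^ p)
    (E0 : I → ℤ) (S : Finset ι) :
    (∀ i ∈ S, (m i : K) = mo x (E i - E0) ∧ ∀ l, E0 l ≤ E i l) →
    ∃ g : A, mo x E0 * (g : K) = ((∏ i ∈ S, u i - ∏ i ∈ S, c i : A) : K) ∧
      ∀ (κ : Type u) [Field κ] [Algebra k κ] (φ : A →ₐ[k] κ) (v : LT φ x),
        ow v ((∑ i ∈ S, V i) + E0) g =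
          φ (∏ i ∈ S, u i) * ∑ i ∈ S, φ (m i) * ow v (V i + E i) (h i) / φ (u i) := by
  classical
  have hφu : ∀ (κ : Type u) [Field κ] [Algebra k κ] (φ : A →ₐ[k] κ) i, φ (u i) ≠ 0 := by
    intro κ _ _ φ i h0
    have h1 : φ (u i) * φ ⟨_, hu i⟩ = 1 := by
      rw [← map_mul, ← map_one φ]
      congr 1
      exact Subtype.ext (mul_inv_cancel₀ (hu0 i))
    rw [h0, zero_mul] at h1
    exact zero_ne_one h1
  induction S using Finset.induction_on with
  | empty =>
    intro _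
    refine ⟨0, by simp, ?_⟩
    intro κ _ _ φ v
    rw [ow_zero, Finset.sum_empty, mul_zero]
  | insert i0 S hi0 ih =>
    intro hm
    obtain ⟨g, hg1, hg2⟩ := ih fun i hi => hm i (Finset.mem_insert_of_mem hi)
    obtain ⟨hm1, hm2⟩ := hm i0 (Finset.mem_insert_self _ _)
    let C : A := ∏ i ∈ S, c i
    let U : A := ∏ i ∈ S, u i
    have hg1' : mo x E0 * (g : K) = (U : K) - (C : K) := hg1
    have hxm : mo x E0 * (m i0 : K) = mo x (E i0) := by
      rw [hm1, ← mo_add hx0]; congr 1; abel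
    refine ⟨u i0 * g + m i0 * (h i0 * C), ?_, ?_⟩
    · rw [Finset.prod_insert hi0, Finset.prod_insert hi0]
      change mo x E0 * ((u i0 : K) * g + m i0 * (h i0 * C)) = (u i0 : K) * U - c i0 * C
      have h1 := hc i0
      rw [h1]
      linear_combination (u i0 : K) * hg1' + ((h i0 : K) * C) * hxm
    · intro κ _ _ φ v
      have hmE : LM' v (E i0) (⟨mo x (E i0), mon_mem hx _ (hE i0)⟩ : A) :=
        mon_log v hx hx0 _ (hE i0)
      have hmm : LM' v (E i0 - E0) (m i0) := by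
        have h1 : ∀ l, 0 ≤ (E i0 - E0) l ∨ (x l)⁻¹ ∈ A := fun l => by
          left; rw [Pi.sub_apply]; have := hm2 l; omega
        have h2 : m i0 = ⟨mo x (E i0 - E0), mon_mem hx _ h1⟩ := Subtype.ext hm1
        rw [h2]
        exact mon_log v hx hx0 _ h1
      -- the form of `u`
      have hou : ow v (V i0) (u i0) =
          φ ⟨mo x (E i0), mon_mem hx _ (hE i0)⟩ * ow v (V i0 + E i0) (h i0) := by
        have h1 : u i0 = c i0 + ⟨mo x (E i0), mon_mem hx _ (hE i0)⟩ * h i0 := by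
          apply Subtype.ext
          change (u i0 : K) = c i0 + mo x (E i0) * h i0
          rw [hc]; ring
        have h2 : ow v (V i0) (c i0) = 0 := ow_root p hR hS hx hx0 v (V i0) (c i0) (a i0) (hca i0)
        rw [h1, ow_add, h2, zero_add, ow_mon v hmE]
      have hoC : ow v (∑ i ∈ S, V i) C = 0 := by
        refine ow_root p hR hS hx hx0 v _ C (∏ i ∈ S, a i) ?_
        have h1 : (C : K) = ∏ i ∈ S, (c i : K) := by
          change A.val (∏ i ∈ S, c i) = _
          rw [map_prod]; rfl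
        change mo x (∑ i ∈ S, V i) * (C : K) = _
        rw [mo_sum hx0, h1, ← Finset.prod_mul_distrib, ← Finset.prod_pow]
        exact Finset.prod_congr rfl fun i _ => hca i
      have e1 : (∑ i ∈ insert i0 S, V i) + E0 = V i0 + ((∑ i ∈ S, V i) + E0) := by
        rw [Finset.sum_insert hi0]; abel
      have e2 : ((∑ i ∈ insert i0 S, V i) + E0) + (E i0 - E0) =
          (V i0 + E i0) + ∑ i ∈ S, V i := by
        rw [Finset.sum_insert hi0]; abel
      have h3 : φ g * φ ⟨mo x (E i0), mon_mem hx _ (hE i0)⟩ = φ (m i0) * (φ U - φ C) := by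
        rw [← map_mul, ← map_sub, ← map_mul]
        congr 1
        apply Subtype.ext
        change (g : K) * mo x (E i0) = m i0 * ((U : K) - C)
        rw [← hxm, ← hg1']
        ring
      have t1 : ow v ((∑ i ∈ insert i0 S, V i) + E0) (u i0 * g) =
          φ (u i0) * ow v ((∑ i ∈ S, V i) + E0) g + φ g * ow v (V i0) (u i0) := by
        rw [e1]; exact ow_mul v _ _ _ _
      have t2 : ow v ((∑ i ∈ insert i0 S, V i) + E0) (m i0 * (h i0 * C)) =
          φ (m i0) * (φ (h i0) * ow v (∑ i ∈ S, V i) C + φ C * ow v (V i0 + E i0) (h i0)) := by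
        rw [ow_mon v hmm, e2, ow_mul]
      rw [ow_add, t1, t2, hoC, hg2 κ φ v, hou, Finset.prod_insert hi0, Finset.sum_insert hi0,
        map_mul]
      change φ (u i0) * (φ U * _) + _ + _ = φ (u i0) * φ U * _
      have h4 := hφu κ φ i0
      field_simp
      linear_combination (ow v (V i0 + E i0) (h i0)) * h3

end chart

end Pool.Agent.TH188.WP
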