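import Pool.Agent.TH188.WP.Chart

/-!
# The joint normal form of products
-/

set_option autoImplicit false
set_option linter.unusedVariables false
set_option linter.unusedSectionVars false

universe u

open Pool.Agent.W558 Pool.Agent.W349.WD.Sum

namespace Pool.Agent.TH188.WP

section gen

variable {k L : Type u} [Field k] [Field L] [Algebra k L] {R0 R : Subalgebra k L} {T I : Type}

/-- The coordinate rings of the charts are integrally closed. -/
lemma root_mem' {M : LM R0 R T I} (hnorm : WD_norm.{u}) (hF : Frc M) {p : ℕ} (hp : 0 < p) (t : T)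
    {z : L} (hz : z ^ p ∈ M.A t) : z ∈ M.A t := by
  have := M.sm t
  have hn : IsIntegrallyClosed (M.A t) := hnorm k (M.A t)
  have hfr : IsFractionRing (M.A t) L := by
    refine IsFractionRing.of_field _ _ fun x => ?_
    obtain ⟨a, ha, b, hb, hb0, h1⟩ := hF t x
    refine ⟨⟨a, ha⟩, ⟨b, hb⟩, ?_⟩
    rw [h1]
    exact (div_eq_mul_inv _ _).symm
  obtain ⟨w, hw⟩ := IsIntegrallyClosed.exists_algebraMap_eq_of_isIntegral_pow
    (R := M.A t) (K := L) (x := z) hp
    ((IsIntegrallyClosed.isIntegral_iff (R := M.A t)).2 ⟨⟨_, hz⟩, rfl⟩)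
  rw [← hw]
  exact w.2

variable [Fintype I] {T' I' : Type} [Fintype I'] {M : LM R0 R T I} {M' : LM R0 R T' I'}
  {π : T' → T} {Θ : I' → I → ℤ}

lemma om_ov (hOv : Ov M M' π Θ) {t' : T'} {κ : Type u} [Field κ] [Algebra k κ]
    {φ' : M'.A t' →ₐ[k] κ} {v : LT (φ'.comp (Subalgebra.inclusion (hOv.le t'))) (M.x (π t'))}
    {v' : LT φ' (M'.x t')}
    (hw1 : ∀ a (ha : a ∈ M.A (π t')), v'.D.D ⟨a, hOv.le t' ha⟩ = v.D.D ⟨a, ha⟩)
    (hw2 : ∀ i, ∑ i', (Θ i' i : κ) * v'.e i' = v.e i) (n : I → ℤ) (N : I' → ℤ)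
    (hNn : ∀ i', N i' = ∑ i, Θ i' i * n i) {h : L} (hh : h ∈ M.A (π t')) :
    ow v' N ⟨h, hOv.le t' hh⟩ = om v n hh := by
  have hNe : ∑ i', (N i' : κ) * v'.e i' = ∑ i, (n i : κ) * v.e i := by
    have h1 : ∀ i', (N i' : κ) * v'.e i' = ∑ i, (n i : κ) * ((Θ i' i : κ) * v'.e i') := by
      intro i'
      rw [hNn]
      push_cast
      rw [Finset.sum_mul]
      apply Finset.sum_congr rfl
      intro i _
      ring
    rw [Finset.sum_congr rfl fun i' _ => h1 i', Finset.sum_comm]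
    apply Finset.sum_congr rfl
    intro i _
    rw [← Finset.mul_sum, hw2 i]
  unfold ow om
  rw [hw1 h hh, hNe]
  rfl

end gen

theorem nfj_prod (hovp : WD_ovp.{u}) (hnorm : WD_norm.{u}) (p : ℕ) [Fact p.Prime] {k K : Type u}
    [Field k] [Field K] [Algebra k K] [CharP k p] {R0 R : Subalgebra k K} {T I ι J : Type}
    [Finite T] [Fintype I] [Fintype ι] [DecidableEq J] (M : LM R0 R T I) (hM : Frc M)
    (f : ι → K) (n : ι → I → ℤ) (a h : T → ι → K) (hN : NFJ p M f n a h)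
    (ν : ι → I → ℤ) (hF : Fn M f ν) (σ : ι → J) (hσ : Function.Surjective σ)
    (B : J → K) (β : J → I → ℤ) (hB : Fn M B β) :
    ∃ (T' I' : Type) (_ : Finite T') (_ : Fintype I') (M' : LM R0 R T' I') (π : T' → T)
      (Θ : I' → I → ℤ) (n' : J → I' → ℤ) (a' h' : T' → J → K), Ov M M' π Θ ∧
      NFJ p M' (fun j => B j ^ p * ∏ i ∈ Finset.univ.filter (fun i => σ i = j), f i)
        n' a' h' := by
  classical
  have hp : p.Prime := Fact.out
  obtain ⟨T', I', iT, iI, M', π, Θ, hOv, hC⟩ := hovp k K R0 R T I (Option ι) M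
    (fun o => o.elim 0 (fun i l => n i l - ν i l))
  have hM' : Frc M' := hM.ov hOv
  -- the exponents
  let V : ι → I' → ℤ := fun i l' => ∑ l, Θ l' l * ν i l
  let E : ι → I' → ℤ := fun i l' => ∑ l, Θ l' l * (n i l - ν i l)
  let b : J → I' → ℤ := fun j l' => ∑ l, Θ l' l * β j l
  have hVE : ∀ i l', (V i + E i) l' = ∑ l, Θ l' l * n i l := by
    intro i l'
    change ∑ l, Θ l' l * ν i l + ∑ l, Θ l' l * (n i l - ν i l) = _
    rw [← Finset.sum_add_distrib]
    exact Finset.sum_congr rfl fun l _ => by ring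
  have hmo : ∀ t' (γ : I → ℤ), ∏ l, M.x (π t') l ^ γ l =
      mo (M'.x t') (fun l' => ∑ l, Θ l' l * γ l) := fun t' γ => prod_ov hOv t' γ
  choose u u0 uA uA' hu using hF
  choose w w0 wA wA' hw using hB
  let fib : J → Finset ι := fun j => Finset.univ.filter (fun i => σ i = j)
  have hfm : ∀ j i, i ∈ fib j ↔ σ i = j := fun j i => by simp [fib]
  have hfib : ∀ j, (fib j).Nonempty := fun j => by
    obtain ⟨i, hi⟩ := hσ j
    exact ⟨i, (hfm j i).2 hi⟩
  let E0 : J → I' → ℤ := fun j l' => (fib j).inf' (hfib j) (fun i => E i l')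
  have hE0 : ∀ i l', E0 (σ i) l' ≤ E i l' := fun i l' =>
    Finset.inf'_le (fun i => E i l') ((hfm _ _).2 rfl)
  have hsm := M'.sm
  have hR : ∀ t', ∀ z : K, z ^ p ∈ M'.A t' → z ∈ M'.A t' := fun t' z hz =>
    root_mem' hnorm hM' hp.pos t' hz
  have hx0 := M'.x0
  have hx := M'.xA
  -- elements of the charts
  let U : ∀ t', ι → M'.A t' := fun t' i => ⟨u i (π t'), hOv.le t' (uA i (π t'))⟩
  let H : ∀ t', ι → M'.A t' := fun t' i => ⟨h (π t') i, hOv.le t' (hN.hA (π t') i)⟩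
  have hfu : ∀ t' i, f i = mo (M'.x t') (V i) * (U t' i : K) := by
    intro t' i
    rw [hu i (π t'), hmo, mul_comm]
  have hfh : ∀ t' i, f i = a (π t') i ^ p + mo (M'.x t') (V i + E i) * (H t' i : K) := by
    intro t' i
    rw [hN.eq (π t') i, hmo]
    have h1 : (fun l' => ∑ l, Θ l' l * n i l) = V i + E i := funext fun l' => (hVE i l').symm
    rw [h1]
  have heq : ∀ t' i, mo (M'.x t') (V i) * (U t' i : K) =
      a (π t') i ^ p + mo (M'.x t') (V i + E i) * (H t' i : K) := fun t' i =>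
    (hfu t' i).symm.trans (hfh t' i)
  have hUi : ∀ t' i, (U t' i : K)⁻¹ ∈ M'.A t' := fun t' i => hOv.le t' (uA' i (π t'))
  have hU0 : ∀ t' i, (U t' i : K) ≠ 0 := fun t' i => u0 i (π t')
  have hlift : ∀ t' (κ : Type u) [Field κ] [Algebra k κ] (φ' : M'.A t' →ₐ[k] κ) (i : ι),
      ∃ v' : LT φ' (M'.x t'), ow v' (V i + E i) (H t' i) ≠ 0 ∧
        ∀ l, l ≠ i → ow v' (V l + E l) (H t' l) = 0 := by
    intro t' κ _ _ φ' i
    obtain ⟨v, hv1, hv2⟩ := hN.ln (π t') κ (φ'.comp (Subalgebra.inclusion (hOv.le t'))) i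
    obtain ⟨v', hw1, hw2⟩ := hOv.lt t' κ φ' v
    have h1 : ∀ l, ow v' (V l + E l) (H t' l) = om v (n l) (hN.hA (π t') l) := fun l =>
      om_ov hOv hw1 hw2 (n l) (V l + E l) (hVE l) (hN.hA (π t') l)
    refine ⟨v', ?_, ?_⟩
    · rw [h1]; exact hv1
    · intro l hl
      rw [h1]; exact hv2 l hl
  have hEn : ∀ t' i l', 0 ≤ E i l' ∨ (M'.x t' l')⁻¹ ∈ M'.A t' := by
    intro t' i
    refine E_nonneg p (hR t') (M'.snc t') (hx t') (hx0 t') (V i) (E i) (U t' i) (H t' i)
      (a (π t') i) (heq t' i) ?_ ?_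
    · intro κ _ _ φ'
      obtain ⟨v', hv, -⟩ := hlift t' κ φ' i
      exact ⟨v', hv⟩
    · have h1 := hC none (some i) t'
      simp only [Option.elim_none, Option.elim_some, Pi.zero_apply, mul_zero,
        Finset.sum_const_zero] at h1
      exact h1
  have hMA : ∀ t' i, mo (M'.x t') (E i) ∈ M'.A t' := fun t' i => mon_mem (hx t') _ (hEn t' i)
  have hmA : ∀ t' i, mo (M'.x t') (E i - E0 (σ i)) ∈ M'.A t' := fun t' i =>
    mon_mem (hx t') _ fun l => by
      left
      have := hE0 i l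
      rw [Pi.sub_apply]; omega
  let m : ∀ t', ι → M'.A t' := fun t' i => ⟨mo (M'.x t') (E i - E0 (σ i)), hmA t' i⟩
  let c : ∀ t', ι → M'.A t' := fun t' i => U t' i - ⟨mo (M'.x t') (E i), hMA t' i⟩ * H t' i
  have hc : ∀ t' i, (c t' i : K) = U t' i - mo (M'.x t') (E i) * H t' i := fun t' i => rfl
  have hca : ∀ t' i, mo (M'.x t') (V i) * c t' i = a (π t') i ^ p := by
    intro t' i
    rw [hc, mul_sub, heq, ← mul_assoc, ← mo_add (hx0 t')]
    ring
  have key : ∀ t' j, ∃ g : M'.A t',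
      mo (M'.x t') (E0 j) * (g : K) = ((∏ i ∈ fib j, U t' i - ∏ i ∈ fib j, c t' i : M'.A t') : K) ∧
      ∀ (κ : Type u) [Field κ] [Algebra k κ] (φ : M'.A t' →ₐ[k] κ) (v : LT φ (M'.x t')),
        ow v ((∑ i ∈ fib j, V i) + E0 j) g =
          φ (∏ i ∈ fib j, U t' i) *
            ∑ i ∈ fib j, φ (m t' i) * ow v (V i + E i) (H t' i) / φ (U t' i) := by
    intro t' j
    refine exists_g p (hR t') (M'.snc t') (hx t') (hx0 t') V E (U t') (H t') (m t') (c t')
      (a (π t')) (hUi t') (hU0 t') (hEn t') (hc t') (hca t') (E0 j) (fib j) ?_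
    intro i hi
    obtain rfl := (hfm j i).1 hi
    exact ⟨rfl, hE0 i⟩
  choose g hg1 hg2 using key
  let W : ∀ t', J → M'.A t' := fun t' j => ⟨w j (π t'), hOv.le t' (wA j (π t'))⟩
  have hBW : ∀ t' j, B j = (W t' j : K) * mo (M'.x t') (b j) := by
    intro t' j
    rw [hw j (π t'), hmo]
  refine ⟨T', I', iT, iI, M', π, Θ, fun j => (fun l => (p : ℤ) * b j l) +
    ((∑ i ∈ fib j, V i) + E0 j), fun t' j => B j * ∏ i ∈ fib j, a (π t') i,
    fun t' j => ((W t' j ^ p * g t' j : M'.A t') : K), hOv, ⟨fun t' j => Subtype.mem _, ?_, ?_⟩⟩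
  · intro t' j
    change B j ^ p * ∏ i ∈ fib j, f i = (B j * ∏ i ∈ fib j, a (π t') i) ^ p +
      mo (M'.x t') ((fun l => (p : ℤ) * b j l) + ((∑ i ∈ fib j, V i) + E0 j)) *
        ((W t' j ^ p * g t' j : M'.A t') : K)
    have h1 : ∏ i ∈ fib j, f i = mo (M'.x t') (∑ i ∈ fib j, V i) * ∏ i ∈ fib j, (U t' i : K) := by
      rw [mo_sum (hx0 t'), ← Finset.prod_mul_distrib]
      exact Finset.prod_congr rfl fun i _ => hfu t' i
    have h2 : (∏ i ∈ fib j, a (π t') i) ^ p =
        mo (M'.x t') (∑ i ∈ fib j, V i) * ∏ i ∈ fib j, (c t' i : K) := by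
      rw [mo_sum (hx0 t'), ← Finset.prod_mul_distrib, ← Finset.prod_pow]
      exact Finset.prod_congr rfl fun i _ => (hca t' i).symm
    have h3 : mo (M'.x t') (E0 j) * (g t' j : K) =
        ∏ i ∈ fib j, (U t' i : K) - ∏ i ∈ fib j, (c t' i : K) := by
      rw [hg1]
      change (M'.A t').val (∏ i ∈ fib j, U t' i - ∏ i ∈ fib j, c t' i) = _
      rw [map_sub, map_prod, map_prod]
      rfl
    have h4 : ((W t' j ^ p * g t' j : M'.A t') : K) = (W t' j : K) ^ p * g t' j := rfl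
    rw [h4, mul_pow, h1, h2, mo_add (hx0 t'), mo_add (hx0 t'), mo_mul_pow (hx0 t'), hBW t' j,
      mul_pow]
    linear_combination (-1 : K) * ((W t' j : K) ^ p * mo (M'.x t') (b j) ^ p *
      mo (M'.x t') (∑ i ∈ fib j, V i)) * h3
  · intro t' κ _ _ φ' j
    have hcκ : CharP κ p := charP_of_injective_algebraMap (algebraMap k κ).injective p
    have hinv : ∀ z : M'.A t', (z : K) ≠ 0 → (z : K)⁻¹ ∈ M'.A t' → φ' z ≠ 0 := by
      intro z hz0 hz h0
      have h1 : φ' z * φ' ⟨_, hz⟩ = 1 := by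
        rw [← map_mul, ← map_one φ']
        congr 1
        exact Subtype.ext (mul_inv_cancel₀ hz0)
      rw [h0, zero_mul] at h1
      exact zero_ne_one h1
    have hφU : ∀ i, φ' (U t' i) ≠ 0 := fun i => hinv _ (hU0 t' i) (hUi t' i)
    have hφW : ∀ j, φ' (W t' j) ≠ 0 := fun j => hinv _ (w0 j (π t')) (hOv.le t' (wA' j (π t')))
    -- the form
    have hform : ∀ (v : LT φ' (M'.x t')) j, om v ((fun l => (p : ℤ) * b j l) +
        ((∑ i ∈ fib j, V i) + E0 j)) (Subtype.mem (W t' j ^ p * g t' j)) =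
        φ' (W t' j) ^ p * (φ' (∏ i ∈ fib j, U t' i) *
            ∑ i ∈ fib j, φ' (m t' i) * ow v (V i + E i) (H t' i) / φ' (U t' i)) := by
      intro v j
      have h1 : om v ((fun l => (p : ℤ) * b j l) +
        ((∑ i ∈ fib j, V i) + E0 j)) (Subtype.mem (W t' j ^ p * g t' j)) =
        ow v ((fun l => (p : ℤ) * b j l) + ((∑ i ∈ fib j, V i) + E0 j)) (W t' j ^ p * g t' j) :=
        rfl
      have h2 : ow v (fun l => (p : ℤ) * b j l) (W t' j ^ p) = 0 := by
        unfold ow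
        rw [D_pow_char p v]
        have h3 : ∑ i, (((p : ℤ) * b j i : ℤ) : κ) * v.e i = 0 := by
          refine Finset.sum_eq_zero fun i _ => ?_
          push_cast
          rw [CharP.cast_eq_zero κ p, zero_mul, zero_mul]
        rw [h3, mul_zero, add_zero]
      rw [h1, ow_mul, h2, mul_zero, add_zero, hg2, map_pow]
    -- the minimal exponent
    have hne : Nonempty {i // i ∈ fib j} := by
      obtain ⟨i, hi⟩ := hfib j
      exact ⟨⟨i, hi⟩⟩
    obtain ⟨⟨i0, hi0⟩, hmin⟩ := exists_min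
      (fun a b : {i // i ∈ fib j} => ∀ l', E a.1 l' ≤ E b.1 l' ∨ (M'.x t' l')⁻¹ ∈ M'.A t')
      (fun a b => hC (some a.1) (some b.1) t') (by
        intro a b c h1 h2 i'
        rcases h1 i' with h3 | h3
        · rcases h2 i' with h4 | h4
          · exact Or.inl (h3.trans h4)
          · exact Or.inr h4
        · exact Or.inr h3)
    have hσi : σ i0 = j := (hfm j i0).1 hi0
    have hmi : φ' (m t' i0) ≠ 0 := by
      refine hinv _ (mo_ne (hx0 t') _) ?_
      have h1 : (m t' i0 : K)⁻¹ = mo (M'.x t') (E0 (σ i0) - E i0) := by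
        have h2 : (m t' i0 : K) * mo (M'.x t') (E0 (σ i0) - E i0) = 1 := by
          change mo (M'.x t') (E i0 - E0 (σ i0)) * _ = 1
          rw [← mo_add (hx0 t')]
          have h3 : E i0 - E0 (σ i0) + (E0 (σ i0) - E i0) = 0 := by abel
          rw [h3, mo_zero]
        exact (eq_inv_of_mul_eq_one_right h2).symm
      rw [h1]
      refine mon_mem (hx t') _ fun l' => ?_
      by_cases hi : (M'.x t' l')⁻¹ ∈ M'.A t'
      · exact Or.inr hi
      · left
        have h2 : E i0 l' ≤ E0 j l' :=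
          Finset.le_inf' _ _ fun i hi' => (hmin ⟨i, hi'⟩ l').resolve_right hi
        rw [Pi.sub_apply, hσi]
        omega
    obtain ⟨v', hv1, hv2⟩ := hlift t' κ φ' i0
    refine ⟨v', ?_, ?_⟩
    · change om v' ((fun l => (p : ℤ) * b j l) + ((∑ i ∈ fib j, V i) + E0 j))
        (Subtype.mem (W t' j ^ p * g t' j)) ≠ 0
      rw [hform]
      refine mul_ne_zero (pow_ne_zero _ (hφW j)) (mul_ne_zero ?_ ?_)
      · rw [map_prod]
        exact Finset.prod_ne_zero_iff.2 fun i _ => hφU i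
      · rw [Finset.sum_eq_single i0]
        · exact div_ne_zero (mul_ne_zero hmi hv1) (hφU i0)
        · intro i _ hi
          rw [hv2 i hi, mul_zero, zero_div]
        · intro h
          exact absurd hi0 h
    · intro j' hj'
      change om v' ((fun l => (p : ℤ) * b j' l) + ((∑ i ∈ fib j', V i) + E0 j'))
        (Subtype.mem (W t' j' ^ p * g t' j')) = 0
      rw [hform]
      have h1 : ∑ i ∈ fib j', φ' (m t' i) * ow v' (V i + E i) (H t' i) / φ' (U t' i) = 0 := by
        refine Finset.sum_eq_zero fun i hi => ?_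
        have h2 : i ≠ i0 := by
          rintro rfl
          exact hj' (((hfm j' i).1 hi).symm.trans hσi)
        rw [hv2 i h2, mul_zero, zero_div]
      rw [h1, mul_zero, mul_zero]

end Pool.Agent.TH188.WP
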