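import Pool.Agent.W349.WD.Sum
import Pool.Agent.W558.Extract
import Pool.Agent.W558.WD.Asm1

/-!
# Logarithmic forms with values at a point
The calculus of the forms `d (x ^ n * a) / x ^ n`, and their vanishing when `x ^ n * a` is a
`p`-th power.
-/

set_option autoImplicit false
set_option linter.unusedVariables false
set_option linter.unusedSectionVars false

universe u

open Pool.Agent.W558

namespace Pool.Agent.TH188.WP

section ow

variable {k K : Type u} [Field k] [Field K] [Algebra k K] {A : Subalgebra k K} {κ : Type u}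
  [Field κ] [Algebra k κ] {φ : A →ₐ[k] κ} {I : Type} [Fintype I] {x : I → K}

/-- The value of the logarithmic form `d (x ^ n * a) / x ^ n`. -/
def ow (v : LT φ x) (n : I → ℤ) (a : A) : κ := v.D.D a + φ a * ∑ i, (n i : κ) * v.e i

lemma om_eq (v : LT φ x) (n : I → ℤ) {h : K} (hh : h ∈ A) : om v n hh = ow v n ⟨h, hh⟩ := rfl

lemma ow_zero (v : LT φ x) (n : I → ℤ) : ow v n 0 = 0 := by
  unfold ow; rw [map_zero, map_zero, zero_mul, add_zero]

lemma ow_add (v : LT φ x) (n : I → ℤ) (a b : A) : ow v n (a + b) = ow v n a + ow v n b := by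
  unfold ow; rw [map_add, map_add]; ring

lemma ow_sub (v : LT φ x) (n : I → ℤ) (a b : A) : ow v n (a - b) = ow v n a - ow v n b := by
  unfold ow; rw [map_sub, map_sub]; ring

lemma sum_add_e (v : LT φ x) (n m : I → ℤ) : ∑ i, ((n + m) i : κ) * v.e i =
    ∑ i, (n i : κ) * v.e i + ∑ i, (m i : κ) * v.e i := by
  rw [← Finset.sum_add_distrib]
  refine Finset.sum_congr rfl fun i _ => ?_
  rw [Pi.add_apply]; push_cast; ring

lemma ow_mul (v : LT φ x) (n m : I → ℤ) (a b : A) :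
    ow v (n + m) (a * b) = φ a * ow v m b + φ b * ow v n a := by
  unfold ow
  rw [v.D.leib, map_mul, sum_add_e]; ring

/-- The logarithmic differential of `m` is that of `x ^ E`. -/
def LM' (v : LT φ x) (E : I → ℤ) (m : A) : Prop := v.D.D m = φ m * ∑ i, (E i : κ) * v.e i

lemma ow_mon (v : LT φ x) {E : I → ℤ} {m : A} (h : LM' v E m) (n : I → ℤ) (a : A) :
    ow v n (m * a) = φ m * ow v (n + E) a := by
  unfold ow
  rw [v.D.leib, map_mul, h, sum_add_e]; ring

lemma D_pow_log (v : LT φ x) {a : A} {c : κ} (h : v.D.D a = φ a * c) (n : ℕ) :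
    v.D.D (a ^ n) = φ (a ^ n) * ((n : κ) * c) := by
  induction n with
  | zero => rw [pow_zero, v.D.D_one]; simp
  | succ n ih =>
    rw [pow_succ, v.D.leib, ih, h, map_mul]
    push_cast
    ring

lemma D_pow_char (p : ℕ) [CharP κ p] (v : LT φ x) (a : A) : v.D.D (a ^ p) = 0 := by
  have h : ∀ n : ℕ, v.D.D (a ^ n) = (n : κ) * φ a ^ (n - 1) * v.D.D a := by
    intro n
    induction n with
    | zero => rw [pow_zero, v.D.D_one]; simp
    | succ n ih =>
      rw [pow_succ, v.D.leib, ih, map_pow]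
      rcases n with _ | n
      · simp
      · simp only [Nat.add_sub_cancel]
        push_cast
        ring
  rw [h, CharP.cast_eq_zero, zero_mul, zero_mul]

lemma D_prod_log (v : LT φ x) {J : Type} (s : Finset J) (a : J → A) (c : J → κ)
    (h : ∀ j, v.D.D (a j) = φ (a j) * c j) :
    v.D.D (∏ j ∈ s, a j) = φ (∏ j ∈ s, a j) * ∑ j ∈ s, c j := by
  classical
  induction s using Finset.induction_on with
  | empty => rw [Finset.prod_empty, v.D.D_one]; simp
  | insert a' s ha ih =>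
    rw [Finset.prod_insert ha, Finset.sum_insert ha, v.D.leib, ih, h, map_mul]
    ring

lemma D_inv_log (v : LT φ x) {a b : A} {c : κ} (h : v.D.D a = φ a * c) (hab : a * b = 1) :
    v.D.D b = φ b * (-c) := by
  have h1 : v.D.D (a * b) = 0 := by rw [hab, v.D.D_one]
  have h2 : φ a * φ b = 1 := by rw [← map_mul, hab, map_one]
  rw [v.D.leib, h] at h1
  have h3 : φ a ≠ 0 := left_ne_zero_of_mul_eq_one h2
  apply mul_left_cancel₀ h3
  linear_combination h1

lemma zpow_mem_log (v : LT φ x) (hx : ∀ i, x i ∈ A) (hx0 : ∀ i, x i ≠ 0) (i : I) (n : ℤ)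
    (hn : 0 ≤ n ∨ (x i)⁻¹ ∈ A) : ∃ h : x i ^ n ∈ A, v.D.D ⟨_, h⟩ = φ ⟨_, h⟩ * ((n : κ) * v.e i) := by
  have key : ∀ n : ℕ, ∃ h : x i ^ (n : ℤ) ∈ A,
      v.D.D ⟨_, h⟩ = φ ⟨_, h⟩ * (((n : ℤ) : κ) * v.e i) := by
    intro n
    have h0 : x i ^ (n : ℤ) ∈ A := by rw [zpow_natCast]; exact A.pow_mem (hx i) n
    refine ⟨h0, ?_⟩
    have h1 : (⟨_, h0⟩ : A) = (⟨x i, hx i⟩ : A) ^ n := Subtype.ext (zpow_natCast _ _)
    rw [h1, D_pow_log v (v.hx i (hx i))]
    push_cast
    rfl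
  by_cases h0 : 0 ≤ n
  · obtain ⟨m, rfl⟩ := Int.eq_ofNat_of_zero_le h0
    exact key m
  · have hi : (x i)⁻¹ ∈ A := hn.resolve_left h0
    obtain ⟨m, hm⟩ := Int.eq_ofNat_of_zero_le (neg_nonneg.2 (not_le.1 h0).le)
    have hm' : n = -(m : ℤ) := by omega
    subst hm'
    have h2 : x i ^ (-(m : ℤ)) ∈ A := by
      rw [zpow_neg, zpow_natCast, ← inv_pow]; exact A.pow_mem hi m
    refine ⟨h2, ?_⟩
    obtain ⟨h3, h4⟩ := key m
    have h5 : (⟨_, h3⟩ : A) * ⟨_, h2⟩ = 1 := by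
      apply Subtype.ext
      change x i ^ (m : ℤ) * x i ^ (-(m : ℤ)) = 1
      rw [← zpow_add₀ (hx0 i), add_neg_cancel, zpow_zero]
    rw [D_inv_log v h4 h5]
    push_cast
    ring

lemma mon_mem (hx : ∀ i, x i ∈ A) (E : I → ℤ) (hE : ∀ i, 0 ≤ E i ∨ (x i)⁻¹ ∈ A) :
    ∏ i, x i ^ E i ∈ A := by
  refine A.prod_mem fun i _ => ?_
  by_cases h0 : 0 ≤ E i
  · obtain ⟨m, hm⟩ := Int.eq_ofNat_of_zero_le h0
    rw [hm, zpow_natCast]; exact A.pow_mem (hx i) m
  · obtain ⟨m, hm⟩ := Int.eq_ofNat_of_zero_le (neg_nonneg.2 (not_le.1 h0).le)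
    have hm' : E i = -(m : ℤ) := by omega
    rw [hm', zpow_neg, zpow_natCast, ← inv_pow]; exact A.pow_mem ((hE i).resolve_left h0) m

lemma mon_log (v : LT φ x) (hx : ∀ i, x i ∈ A) (hx0 : ∀ i, x i ≠ 0) (E : I → ℤ)
    (hE : ∀ i, 0 ≤ E i ∨ (x i)⁻¹ ∈ A) : LM' v E ⟨_, mon_mem hx E hE⟩ := by
  choose h1 h2 using fun i => zpow_mem_log v hx hx0 i (E i) (hE i)
  have h3 : (⟨_, mon_mem hx E hE⟩ : A) = ∏ i, (⟨_, h1 i⟩ : A) := by
    apply Subtype.ext
    change _ = A.val (∏ i, (⟨_, h1 i⟩ : A))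
    rw [map_prod]
    rfl
  unfold LM'
  rw [h3]
  exact D_prod_log v Finset.univ _ _ h2

end ow

section root

variable {k K : Type u} [Field k] [Field K] [Algebra k K] {A : Subalgebra k K} {κ : Type u}
  [Field κ] [Algebra k κ] {φ : A →ₐ[k] κ} {I : Type} [Fintype I] {x : I → K}

lemma dvd_of_dvd_pow' [Algebra.Smooth k A] (hS : SNC A x) (hx : ∀ i, x i ∈ A) (i : I) (b : A)
    (n : ℕ) (h : (⟨x i, hx i⟩ : A) ∣ b ^ n) : (⟨x i, hx i⟩ : A) ∣ b := by
  have hsm : Algebra.Smooth k (A ⧸ Ideal.span {(⟨x i, hx i⟩ : A)}) := by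
    refine smooth_quot _ ?_
    intro κ _ _ φ hφ
    obtain ⟨D, hD, -⟩ := hS κ φ i (hx i) hφ
    exact ⟨D, by rw [hD]; exact one_ne_zero⟩
  have hred := isReduced_of_smooth k (A ⧸ Ideal.span {(⟨x i, hx i⟩ : A)})
  have h1 : (Ideal.Quotient.mk (Ideal.span {(⟨x i, hx i⟩ : A)}) b) ^ n = 0 := by
    rw [← map_pow]
    exact Ideal.Quotient.eq_zero_iff_mem.2 (Ideal.mem_span_singleton.2 h)
  have h2 : Ideal.Quotient.mk (Ideal.span {(⟨x i, hx i⟩ : A)}) b = 0 :=
    (hred.eq_zero _ ⟨n, h1⟩)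
  exact Ideal.mem_span_singleton.1 (Ideal.Quotient.eq_zero_iff_mem.1 h2)

lemma div_mem_of_prod_mul' [Algebra.Smooth k A] (hS : SNC A x) (hx : ∀ l, x l ∈ A)
    (hx0 : ∀ l, x l ≠ 0) (i : I) (e : I → ℕ) (s : Finset I) (hi : i ∉ s) {a : K} (ha : a ∈ A) :
    (∏ l ∈ s, x l ^ e l) * (a / x i) ∈ A → a / x i ∈ A := by
  classical
  induction s using Finset.induction_on with
  | empty => intro h; simpa using h
  | insert l s hl ih =>
    intro h
    have hil : i ≠ l := fun h => hi (h ▸ Finset.mem_insert_self _ _)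
    apply ih (fun h => hi (Finset.mem_insert_of_mem h))
    rw [Finset.prod_insert hl] at h
    have hP : ∏ l ∈ s, x l ^ e l ∈ A := A.prod_mem fun l _ => A.pow_mem (hx l) _
    have h1 : ∀ n : ℕ, x l ^ n * ((∏ l ∈ s, x l ^ e l) * (a / x i)) ∈ A →
        (∏ l ∈ s, x l ^ e l) * (a / x i) ∈ A := by
      intro n
      induction n with
      | zero => intro h; simpa using h
      | succ n ihn =>
        intro h
        apply ihn
        have h2 : x l ^ n * ((∏ l ∈ s, x l ^ e l) * (a / x i)) =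
            (x l ^ n * (∏ l ∈ s, x l ^ e l) * a) / x i := by ring
        rw [h2]
        refine div_mem_of_mul_div hS (i := i) (j := l) hil (hx i) (hx l) (hx0 i)
          (A.mul_mem (A.mul_mem (A.pow_mem (hx l) n) hP) ha) ?_
        have h3 : x l * (x l ^ n * (∏ l ∈ s, x l ^ e l) * a / x i) =
            x l ^ (n + 1) * ((∏ l ∈ s, x l ^ e l) * (a / x i)) := by ring
        rw [h3]
        exact h
    apply h1 (e l)
    rw [← mul_assoc]
    exact h

/-- The logarithmic form vanishes if `x ^ ν * c` is a `p`-th power. -/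
theorem ow_root (p : ℕ) [Fact p.Prime] [CharP k p] [Algebra.Smooth k A]
    (hR : ∀ z : K, z ^ p ∈ A → z ∈ A) (hS : SNC A x) (hx : ∀ i, x i ∈ A) (hx0 : ∀ i, x i ≠ 0)
    (v : LT φ x) (ν : I → ℤ) (c : A) (a : K) (h : (∏ i, x i ^ ν i) * (c : K) = a ^ p) :
    ow v ν c = 0 := by
  classical
  have hp : p.Prime := Fact.out
  have hpz : (0 : ℤ) < (p : ℤ) := by exact_mod_cast hp.pos
  have hcκ : CharP κ p := charP_of_injective_algebraMap (algebraMap k κ).injective p
  let s : I → ℕ := fun i => (ν i % (p : ℤ)).toNat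
  let q : I → ℤ := fun i => ν i / (p : ℤ)
  have hs : ∀ i, (s i : ℤ) = ν i % (p : ℤ) := fun i => Int.toNat_of_nonneg (Int.emod_nonneg _ hpz.ne')
  have hsp : ∀ i, s i < p := by
    intro i
    have h1 := Int.emod_lt_of_pos (ν i) hpz
    have h2 := hs i
    omega
  have hν : ∀ i, ν i = s i + (p : ℤ) * q i := by
    intro i
    rw [hs]
    exact (Int.emod_add_mul_ediv (ν i) (p : ℤ)).symm
  let m : A := ∏ i, (⟨x i, hx i⟩ : A) ^ s i
  have hm : (m : K) = ∏ i, x i ^ s i := by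
    change A.val m = _
    rw [map_prod]
    rfl
  let b : K := a * (∏ i, x i ^ q i)⁻¹
  have hq0 : (∏ i, x i ^ q i) ≠ 0 := Finset.prod_ne_zero_iff.2 fun i _ => zpow_ne_zero _ (hx0 i)
  have hb : b ^ p = (m : K) * c := by
    have h1 : ∏ i, x i ^ ν i = (∏ i, x i ^ s i) * (∏ i, x i ^ q i) ^ p := by
      rw [← Finset.prod_pow, ← Finset.prod_mul_distrib]
      refine Finset.prod_congr rfl fun i _ => ?_
      rw [← zpow_natCast, ← zpow_natCast, ← zpow_mul, ← zpow_add₀ (hx0 i), hν i, mul_comm (q i)]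
    change (a * (∏ i, x i ^ q i)⁻¹) ^ p = _
    rw [mul_pow, ← h, h1, hm, inv_pow]
    have h2 := pow_ne_zero p hq0
    field_simp
  have hbA : b ∈ A := hR b (by rw [hb]; exact A.mul_mem m.2 c.2)
  have hb' : (⟨b, hbA⟩ : A) ^ p = m * c := Subtype.ext hb
  have hsum : ∑ i, (ν i : κ) * v.e i = ∑ i, (s i : κ) * v.e i := by
    refine Finset.sum_congr rfl fun i _ => ?_
    rw [hν i]
    push_cast
    rw [CharP.cast_eq_zero κ p, zero_mul, add_zero]
  have hDm : v.D.D m = φ m * ∑ i, (s i : κ) * v.e i :=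
    D_prod_log v Finset.univ _ _ fun i => D_pow_log v (v.hx i (hx i)) (s i)
  have h1 : φ m * ow v ν c = 0 := by
    have h2 : v.D.D (m * c) = 0 := by rw [← hb']; exact D_pow_char p v _
    rw [v.D.leib, hDm] at h2
    unfold ow
    rw [hsum]
    linear_combination h2
  by_cases hφ : φ m = 0
  · -- there is a component through the point
    obtain ⟨i, hi1, hi2⟩ : ∃ i, s i ≠ 0 ∧ φ ⟨x i, hx i⟩ = 0 := by
      have h2 : φ m = ∏ i, φ ⟨x i, hx i⟩ ^ s i := by
        rw [map_prod]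
        exact Finset.prod_congr rfl fun i _ => map_pow _ _ _
      rw [h2, Finset.prod_eq_zero_iff] at hφ
      obtain ⟨i, -, hi⟩ := hφ
      have h0 : s i ≠ 0 := fun h0 => by rw [h0, pow_zero] at hi; exact one_ne_zero hi
      exact ⟨i, h0, (pow_eq_zero_iff h0).1 hi⟩
    let r : A := ∏ l ∈ Finset.univ.erase i, (⟨x l, hx l⟩ : A) ^ s l
    have hr : (r : K) = ∏ l ∈ Finset.univ.erase i, x l ^ s l := by
      change A.val r = _
      rw [map_prod]
      rfl
    have hmr : m = (⟨x i, hx i⟩ : A) ^ s i * r :=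
      (Finset.mul_prod_erase Finset.univ (fun l => (⟨x l, hx l⟩ : A) ^ s l)
        (Finset.mem_univ i)).symm
    have h2 : (⟨x i, hx i⟩ : A) ∣ (⟨b, hbA⟩ : A) ^ p := by
      rw [hb', hmr]
      obtain ⟨n, hn⟩ := Nat.exists_eq_succ_of_ne_zero hi1
      exact ⟨(⟨x i, hx i⟩ : A) ^ n * r * c, by rw [hn, Nat.succ_eq_add_one, pow_succ]; ring⟩
    obtain ⟨b', hb2⟩ := dvd_of_dvd_pow' hS hx i _ p h2
    -- `x i` divides `c * r`
    have hxi0 : (⟨x i, hx i⟩ : A) ≠ 0 := fun h => hx0 i (congrArg Subtype.val h)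
    have h3 : (⟨x i, hx i⟩ : A) ^ (p - s i) * b' ^ p = r * c := by
      apply mul_left_cancel₀ (pow_ne_zero (s i) hxi0)
      have h4 : (⟨x i, hx i⟩ : A) ^ s i * ((⟨x i, hx i⟩ : A) ^ (p - s i) * b' ^ p) =
          (⟨b, hbA⟩ : A) ^ p := by
        rw [hb2, mul_pow, ← mul_assoc, ← pow_add, Nat.add_sub_cancel' (hsp i).le]
      rw [h4, hb', hmr]
      ring
    have h5 : (r : K) * ((c : K) / x i) ∈ A := by
      obtain ⟨n, hn⟩ := Nat.exists_eq_succ_of_ne_zero (Nat.sub_pos_of_lt (hsp i)).ne'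
      have h6 : (r : K) * ((c : K) / x i) = (((⟨x i, hx i⟩ : A) ^ n * b' ^ p : A) : K) := by
        have h7 : (r : K) * c = x i ^ (p - s i) * (b' : K) ^ p := congrArg Subtype.val h3.symm
        have h8 : (((⟨x i, hx i⟩ : A) ^ n * b' ^ p : A) : K) = x i ^ n * (b' : K) ^ p := rfl
        rw [h8, mul_div_assoc', h7, hn, Nat.succ_eq_add_one, pow_succ]
        have := hx0 i
        field_simp
      rw [h6]
      exact Subtype.mem _
    have h6 : (c : K) / x i ∈ A := by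
      rw [hr] at h5
      exact div_mem_of_prod_mul' hS hx hx0 i s _ (Finset.notMem_erase i _) c.2 h5
    have h7 : c = (⟨x i, hx i⟩ : A) * ⟨_, h6⟩ := by
      apply Subtype.ext
      change (c : K) = x i * ((c : K) / x i)
      have := hx0 i
      field_simp
    unfold ow
    rw [h7, v.D.leib, map_mul, v.hx i (hx i), hi2]
    ring
  · exact (mul_eq_zero.1 h1).resolve_left hφ

end root

end Pool.Agent.TH188.WP
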